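import Pool.Agent.helper72.MM.X0

/-!
# Project MM (MP_bf63dc_nt): sets of distances with few independent quadruples have lower Banach density at least a third

`S` is a set of positive integers. Join two integers if they are different and their distance is not in `S`. If for every `κ > 0` and every
spread sequence of integers in the classes `0, 1` modulo 3 the proportion of complete quadruples is at most `κ`, then every long interval contains at
least a third of elements of `S`.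

Proof: take the largest `r ≤ 3` such that some spread sequence `x` has a positive proportion of complete `r`-tuples. The points `y + t` and `y - t`, where `t` is in a long interval, cannot be joined to
all the points of such an `r`-tuple, except for a small proportion, and this for `t` in two of the three classes modulo 3.
-/

set_option autoImplicit false

namespace Pool.Agent.MM

open Finset Pool.Agent.AT

open Classical in
/-- few quadruples of a sequence of forms contain no two forms which are prime simultaneously infinitely often -/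
theorem quad_adm (hQ : Qk 4) (κ : ℝ) (hκ : 0 < κ) : ∃ η : ℝ, 0 < η ∧ ∀ (n : ℕ) (f : ℕ → ℕ × ℤ), 0 < n →
    (∀ i < n, 0 < (f i).1) → (∀ t : Fin 4 → ℕ, (∀ j, t j < n) → Adm (f ∘ t)) → (∀ x, (mu n f x : ℝ) ≤ η * n) →
    (#{t ∈ Fintype.piFinset (fun _ : Fin 4 => range n) | ∀ i j, i ≠ j → ¬ PP (f (t i)) (f (t j))} : ℝ) ≤ κ * (n : ℝ) ^ 4 := by
  obtain ⟨C, δ, hC, hδ, -, hQ⟩ := hQ
  obtain ⟨L, hL1, hL⟩ : ∃ L : ℕ, 1 ≤ L ∧ C * (L : ℝ) ^ (-δ) ≤ κ / 2 := by
    have h1 : Filter.Tendsto (fun L : ℕ => C * (L : ℝ) ^ (-δ)) Filter.atTop (nhds (C * 0)) :=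
      ((tendsto_rpow_neg_atTop hδ).comp tendsto_natCast_atTop_atTop).const_mul C
    rw [mul_zero] at h1
    obtain ⟨L, h2, h3⟩ := ((h1.eventually (gt_mem_nhds (show (0 : ℝ) < κ / 2 by positivity))).and
      (Filter.eventually_ge_atTop 1)).exists
    exact ⟨L, h3, h2.le⟩
  have hL0 : (0 : ℝ) < L := by exact_mod_cast hL1
  refine ⟨κ / (16 * L), by positivity, ?_⟩
  intro n f hn hpos hAdm hmu
  obtain ⟨η, hη⟩ : ∃ η : ℝ, η = κ / (16 * L) := ⟨_, rfl⟩
  rw [← hη] at hmu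
  have hηL : 8 * η * L = κ / 2 := by
    rw [hη]
    field_simp
    norm_num
  have h1 : 1 ≤ η * n := by
    refine le_trans ?_ (hmu (f 0))
    exact_mod_cast mu_pos n f hn
  have hbad := bad_le n f (fun g : Fin 4 → ℕ × ℤ => Adm g ∧ ¬ Many g) L (C * (L : ℝ) ^ (-δ)) η (by positivity) hmu h1 (by
    intro F hF hFi
    have h2 := hQ F L hL1 hF (by
      intro i x hx
      obtain ⟨j, hj, rfl⟩ := hFi i x hx
      exact hpos j hj)
    rw [mul_right_comm] at h2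
    exact h2)
  have h2 : #{t ∈ Fintype.piFinset (fun _ : Fin 4 => range n) | ∀ i j, i ≠ j → ¬ PP (f (t i)) (f (t j))} ≤
      #{t ∈ Fintype.piFinset (fun _ : Fin 4 => range n) | Adm (f ∘ t) ∧ ¬ Many (f ∘ t)} := by
    refine card_le_card fun t ht => ?_
    rw [mem_filter] at ht ⊢
    refine ⟨ht.1, hAdm _ fun j => mem_range.1 ((Fintype.mem_piFinset.1 ht.1) j), ?_⟩
    intro hM
    obtain ⟨i, j, hij, hp⟩ := QP_pair _ hM
    exact ht.2 i j hij hp
  refine le_trans (Nat.cast_le.2 h2) (hbad.trans ?_)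
  refine mul_le_mul_of_nonneg_right ?_ (by positivity)
  linarith

/-- different integers whose distance is not in `S` -/
def HS (S : ℕ → Prop) (u v : ℤ) : Prop := u ≠ v ∧ ¬ S (u - v).natAbs

theorem HS_symm (S : ℕ → Prop) (u v : ℤ) (h : HS S u v) : HS S v u := by
  refine ⟨h.1.symm, ?_⟩
  have e : (v - u).natAbs = (u - v).natAbs := by omega
  rw [e]
  exact h.2

open Classical in
/-- the complete `r`-tuples -/
noncomputable def KQ (S : ℕ → Prop) (r n : ℕ) (x : ℕ → ℤ) : Finset (Fin r → ℕ) :=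
  {t ∈ Fintype.piFinset (fun _ : Fin r => range n) | ∀ i j, i ≠ j → HS S (x (t i)) (x (t j))}

open Classical in
/-- the elements of `S` in `(u, u + M]` in the class of `s` modulo 3 -/
noncomputable def Dc (S : ℕ → Prop) (u M : ℕ) (s : ℤ) : ℕ := #{m ∈ Ioc u (u + M) | (3 : ℤ) ∣ ((m : ℕ) : ℤ) - s ∧ S m}

theorem jo_lt {α : Type} (n : ℕ) (s t : ℕ → α) (i : ℕ) (hi : i < n) : jo n s t i = s i := by
  unfold jo
  rw [if_pos hi]

theorem jo_add {α : Type} (n : ℕ) (s t : ℕ → α) (i : ℕ) : jo n s t (n + i) = t i := by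
  unfold jo
  rw [if_neg (by omega), Nat.add_sub_cancel_left]

/-- the number of the elements of a class modulo 3 in an interval -/
theorem cls_ge (v s : ℤ) (hv : v = 1 ∨ v = -1) (A N : ℕ) :
    N / 3 ≤ #{t ∈ Ioc A (A + N) | (3 : ℤ) ∣ v * ((t : ℕ) : ℤ) - s} := by
  obtain ⟨t0, h1, h2, h3⟩ : ∃ t0 : ℕ, A < t0 ∧ t0 ≤ A + 3 ∧ (3 : ℤ) ∣ v * (t0 : ℤ) - s := by
    rcases hv with rfl | rfl
    · by_cases e1 : (3 : ℤ) ∣ 1 * ((A + 1 : ℕ) : ℤ) - s
      · exact ⟨A + 1, by omega, by omega, e1⟩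
      · by_cases e2 : (3 : ℤ) ∣ 1 * ((A + 2 : ℕ) : ℤ) - s
        · exact ⟨A + 2, by omega, by omega, e2⟩
        · refine ⟨A + 3, by omega, by omega, ?_⟩
          push_cast at *
          omega
    · by_cases e1 : (3 : ℤ) ∣ -1 * ((A + 1 : ℕ) : ℤ) - s
      · exact ⟨A + 1, by omega, by omega, e1⟩
      · by_cases e2 : (3 : ℤ) ∣ -1 * ((A + 2 : ℕ) : ℤ) - s
        · exact ⟨A + 2, by omega, by omega, e2⟩
        · refine ⟨A + 3, by omega, by omega, ?_⟩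
          push_cast at *
          omega
  have h4 : #(range (N / 3)) ≤ #{t ∈ Ioc A (A + N) | (3 : ℤ) ∣ v * ((t : ℕ) : ℤ) - s} := by
    refine card_le_card_of_injOn (fun i => t0 + 3 * i) ?_ ?_
    · intro i hi
      have hi' := mem_range.1 (mem_coe.1 hi)
      rw [mem_coe, mem_filter, mem_Ioc]
      dsimp only
      refine ⟨⟨by omega, by omega⟩, ?_⟩
      push_cast
      have e : v * ((t0 : ℤ) + 3 * i) - s = (v * t0 - s) + 3 * (v * i) := by ring
      rw [e]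
      exact dvd_add h3 (Dvd.intro _ rfl)
    · intro i _ j _ h
      dsimp only at h
      omega
  rwa [card_range] at h4

theorem step (S : ℕ → Prop) (r : ℕ) (η κ ρ ε : ℝ) (hη : 0 < η) (hρ : 0 < ρ) (hε : 0 < ε)
    (hκρ : 4 * 2 ^ (r + 1) * κ ≤ ε / 2 * ρ)
    (hP : ∀ (m : ℕ) (z : ℕ → ℤ), 0 < m → (∀ i < m, (3 : ℤ) ∣ z i ∨ (3 : ℤ) ∣ z i - 1) → (∀ v, (mu m z v : ℝ) ≤ η * m) →
      (#(KQ S (r + 1) m z) : ℝ) ≤ κ * (m : ℝ) ^ (r + 1))
    (n : ℕ) (x : ℕ → ℤ) (hn : 0 < n) (hcl : ∀ i < n, (3 : ℤ) ∣ x i ∨ (3 : ℤ) ∣ x i - 1) (hx : ∀ v, (mu n x v : ℝ) ≤ η * n)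
    (hK : ρ * (n : ℝ) ^ r ≤ #(KQ S r n x)) :
    ∃ M₀ : ℕ, ∀ M : ℕ, M₀ ≤ M → ∀ u : ℕ, ∃ τ : Fin r → ℤ, (∀ i, τ i = 0 ∨ τ i = 1) ∧
      ∀ v s : ℤ, (v = 1 ∨ v = -1) → (s = 0 ∨ s = 1) → (1 / 3 - ε) * M ≤ ∑ i, (Dc S u M (v * (s - τ i)) : ℝ) := by
  classical
  have hn0 : (0 : ℝ) < n := by exact_mod_cast hn
  have h1η : 1 ≤ η * n := by
    refine le_trans ?_ (hx (x 0))
    exact_mod_cast mu_pos n x hn
  -- the bound for the points
  obtain ⟨X, hX⟩ : ∃ X : ℕ, ∀ i < n, (x i).natAbs + 3 * i ≤ X :=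
    ⟨∑ i ∈ range n, ((x i).natAbs + 3 * i), fun i hi =>
      single_le_sum (f := fun i => (x i).natAbs + 3 * i) (fun _ _ => Nat.zero_le _) (mem_range.2 hi)⟩
  obtain ⟨M₀, hM₀⟩ := exists_nat_ge ((4 * X + 2) / (3 * (ε / 2)))
  refine ⟨max M₀ (4 * X), fun M hM u => ?_⟩
  have hMX : 4 * X ≤ M := (le_max_right _ _).trans hM
  have hMε : (4 * (X : ℝ) + 2) / 3 ≤ ε / 2 * M := by
    have h1 : (4 * (X : ℝ) + 2) / (3 * (ε / 2)) ≤ M := hM₀.trans (by exact_mod_cast (le_max_left _ _).trans hM)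
    rw [div_le_iff₀ (by positivity)] at h1
    linarith
  obtain ⟨J, hJ⟩ : ∃ J : Finset ℕ, J = Ioc (u + 2 * X) (u + 2 * X + (M - 4 * X)) := ⟨_, rfl⟩
  have hJc : (#J : ℝ) ≤ M := by
    rw [hJ, Nat.card_Ioc]
    exact_mod_cast (show u + 2 * X + (M - 4 * X) - (u + 2 * X) ≤ M by omega)
  obtain ⟨VS, hVS⟩ : ∃ VS : Finset (ℤ × ℤ), VS = ({1, -1} : Finset ℤ) ×ˢ ({0, 1} : Finset ℤ) := ⟨_, rfl⟩
  have hVSc : #VS = 4 := by
    rw [hVS]
    rfl
  have hVSm : ∀ v s : ℤ, (v, s) ∈ VS ↔ (v = 1 ∨ v = -1) ∧ (s = 0 ∨ s = 1) := by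
    intro v s
    rw [hVS, mem_product, mem_insert, mem_singleton, mem_insert, mem_singleton]
  obtain ⟨Q, hQ⟩ : ∃ Q : Finset ((Fin r → ℕ) × ℕ), Q = KQ S r n x ×ˢ range n := ⟨_, rfl⟩
  have hQc : ρ * (n : ℝ) ^ (r + 1) ≤ #Q := by
    rw [hQ, card_product, card_range]
    push_cast
    calc ρ * (n : ℝ) ^ (r + 1) = (ρ * (n : ℝ) ^ r) * n := by ring
      _ ≤ _ := mul_le_mul_of_nonneg_right hK hn0.le
  have hQne : Q.Nonempty := by
    rw [← card_pos]
    have h1 : (0 : ℝ) < #Q := lt_of_lt_of_le (by positivity) hQc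
    exact_mod_cast h1
  -- the count for one `t`
  have hone : ∀ v s : ℤ, (v = 1 ∨ v = -1) → (s = 0 ∨ s = 1) → ∀ t : ℕ, (3 : ℤ) ∣ v * (t : ℤ) - s →
      (#{q ∈ Q | ∀ i, HS S (x (q.1 i)) (3 * (q.2 : ℤ) + v * t)} : ℝ) ≤ κ * ((n + n : ℕ) : ℝ) ^ (r + 1) := by
    intro v s hv hs t ht
    obtain ⟨y, hy⟩ : ∃ y : ℕ → ℤ, y = fun l : ℕ => 3 * (l : ℤ) + v * t := ⟨_, rfl⟩
    have h1 := hP (n + n) (jo n x y) (by omega) (by
      intro i hi
      by_cases h2 : i < n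
      · rw [jo_lt n x y i h2]
        exact hcl i h2
      · obtain ⟨l, rfl⟩ : ∃ l, i = n + l := ⟨i - n, by omega⟩
        rw [jo_add, hy]
        dsimp only
        rcases hs with rfl | rfl
        · left
          have e : 3 * (l : ℤ) + v * t = 3 * l + (v * t - 0) := by ring
          rw [e]
          exact dvd_add (Dvd.intro _ rfl) ht
        · right
          have e : 3 * (l : ℤ) + v * t - 1 = 3 * l + (v * t - 1) := by ring
          rw [e]
          exact dvd_add (Dvd.intro _ rfl) ht) (by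
      intro w
      rw [jo_mu]
      have h2 := hx w
      have h3 : mu n y w ≤ 1 := mu_inj n y (fun l l' h => by
        rw [hy] at h
        dsimp only at h
        omega) w
      have h4 : (mu n y w : ℝ) ≤ 1 := by exact_mod_cast h3
      push_cast
      linarith)
    refine le_trans (Nat.cast_le.2 ?_) h1
    refine card_le_card_of_injOn (fun q => Fin.cons (n + q.2) q.1) ?_ ?_
    · rintro ⟨t', l⟩ hq
      rw [mem_coe, mem_filter, hQ, mem_product] at hq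
      obtain ⟨⟨h2, h3⟩, h4⟩ := hq
      dsimp only at h2 h3 h4
      have h3' := mem_range.1 h3
      unfold KQ at h2
      rw [mem_filter, Fintype.mem_piFinset] at h2
      obtain ⟨h5, h6⟩ := h2
      have h4' : ∀ i, HS S (x (t' i)) (y l) := by
        intro i
        rw [hy]
        exact h4 i
      rw [mem_coe]
      unfold KQ
      rw [mem_filter, Fintype.mem_piFinset]
      dsimp only
      refine ⟨fun i => ?_, fun i j hij => ?_⟩
      · rw [mem_range]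
        refine Fin.cases ?_ (fun i => ?_) i
        · rw [Fin.cons_zero]
          omega
        · rw [Fin.cons_succ]
          have := mem_range.1 (h5 i)
          omega
      · revert hij
        refine Fin.cases ?_ (fun i => ?_) i
        · refine Fin.cases ?_ (fun j => ?_) j
          · exact fun h => absurd rfl h
          · intro _
            rw [Fin.cons_zero, Fin.cons_succ, jo_add, jo_lt n x y _ (mem_range.1 (h5 j))]
            exact HS_symm _ _ _ (h4' j)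
        · refine Fin.cases ?_ (fun j => ?_) j
          · intro _
            rw [Fin.cons_zero, Fin.cons_succ, jo_add, jo_lt n x y _ (mem_range.1 (h5 i))]
            exact h4' i
          · intro h
            rw [Fin.cons_succ, Fin.cons_succ, jo_lt n x y _ (mem_range.1 (h5 i)), jo_lt n x y _ (mem_range.1 (h5 j))]
            exact h6 i j fun h7 => h (by rw [h7])
    · rintro ⟨t1, l1⟩ _ ⟨t2, l2⟩ _ h
      dsimp only at h
      have h1 := congrFun h 0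
      rw [Fin.cons_zero, Fin.cons_zero] at h1
      have h2 : t1 = t2 := by
        funext i
        have h3 := congrFun h i.succ
        rw [Fin.cons_succ, Fin.cons_succ] at h3
        exact h3
      rw [h2]
      have h3 : l1 = l2 := by omega
      rw [h3]
  -- averaging
  obtain ⟨F, hF⟩ : ∃ F : (Fin r → ℕ) × ℕ → ℝ, F = fun q => ∑ vs ∈ VS, ∑ t ∈ J,
      (if (3 : ℤ) ∣ vs.1 * (t : ℤ) - vs.2 ∧ ∀ i, HS S (x (q.1 i)) (3 * (q.2 : ℤ) + vs.1 * t) then (1 : ℝ) else 0) := ⟨_, rfl⟩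
  have hκ0 : 0 ≤ κ * ((n + n : ℕ) : ℝ) ^ (r + 1) := le_trans (Nat.cast_nonneg _) (hone 1 0 (Or.inl rfl) (Or.inl rfl) 0 (by simp))
  have hsum : ∑ q ∈ Q, F q ≤ ∑ _q ∈ Q, ε / 2 * #J := by
    calc ∑ q ∈ Q, F q = ∑ vs ∈ VS, ∑ t ∈ J, ∑ q ∈ Q,
        (if (3 : ℤ) ∣ vs.1 * (t : ℤ) - vs.2 ∧ ∀ i, HS S (x (q.1 i)) (3 * (q.2 : ℤ) + vs.1 * t) then (1 : ℝ) else 0) := by
          rw [hF]
          rw [sum_comm]
          exact sum_congr rfl fun vs _ => sum_comm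
      _ ≤ ∑ _vs ∈ VS, ∑ _t ∈ J, κ * ((n + n : ℕ) : ℝ) ^ (r + 1) := by
          refine sum_le_sum fun vs hvs => sum_le_sum fun t _ => ?_
          obtain ⟨v, s⟩ := vs
          have h1 := (hVSm v s).1 hvs
          dsimp only
          by_cases h2 : (3 : ℤ) ∣ v * (t : ℤ) - s
          · refine le_trans (le_of_eq ?_) (hone v s h1.1 h1.2 t h2)
            rw [card_filter]
            push_cast
            refine sum_congr rfl fun q _ => ?_
            by_cases h3 : ∀ i, HS S (x (q.1 i)) (3 * (q.2 : ℤ) + v * t)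
            · rw [if_pos ⟨h2, h3⟩, if_pos h3]
            · rw [if_neg fun h => h3 h.2, if_neg h3]
          · refine le_trans (le_of_eq ?_) hκ0
            exact sum_eq_zero fun q _ => if_neg fun h => h2 h.1
      _ = 4 * (#J * (κ * ((n + n : ℕ) : ℝ) ^ (r + 1))) := by
          rw [sum_const, sum_const, nsmul_eq_mul, nsmul_eq_mul, hVSc]
          norm_num
      _ = (4 * 2 ^ (r + 1) * κ) * ((n : ℝ) ^ (r + 1) * #J) := by
          push_cast
          rw [← two_mul, mul_pow]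
          ring
      _ ≤ (ε / 2 * ρ) * ((n : ℝ) ^ (r + 1) * #J) := mul_le_mul_of_nonneg_right hκρ (by positivity)
      _ = (ρ * (n : ℝ) ^ (r + 1)) * (ε / 2 * #J) := by ring
      _ ≤ #Q * (ε / 2 * #J) := mul_le_mul_of_nonneg_right hQc (by positivity)
      _ = _ := by rw [sum_const, nsmul_eq_mul]
  obtain ⟨⟨t', l⟩, hq, hFq⟩ := exists_le_of_sum_le hQne hsum
  rw [hQ, mem_product] at hq
  obtain ⟨ht', hl⟩ := hq
  dsimp only at ht' hl
  have hl' := mem_range.1 hl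
  unfold KQ at ht'
  rw [mem_filter, Fintype.mem_piFinset] at ht'
  obtain ⟨ht1, -⟩ := ht'
  have ht1' : ∀ i, t' i < n := fun i => mem_range.1 (ht1 i)
  refine ⟨fun i => if (3 : ℤ) ∣ x (t' i) then 0 else 1, fun i => ?_, ?_⟩
  · dsimp only
    split_ifs
    · exact Or.inl rfl
    · exact Or.inr rfl
  intro v s hv hs
  obtain ⟨τ, hτ⟩ : ∃ τ : Fin r → ℤ, τ = fun i => if (3 : ℤ) ∣ x (t' i) then 0 else 1 := ⟨_, rfl⟩
  have hτx : ∀ i, (3 : ℤ) ∣ x (t' i) - τ i := by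
    intro i
    rw [hτ]
    dsimp only
    split_ifs with h1
    · rwa [sub_zero]
    · exact (hcl _ (ht1' i)).resolve_left h1
  rw [← hτ]
  -- the part of `F` for `v, s`
  have hFvs : (#{t ∈ J | (3 : ℤ) ∣ v * ((t : ℕ) : ℤ) - s ∧ ∀ i, HS S (x (t' i)) (3 * (l : ℤ) + v * t)} : ℝ) ≤ ε / 2 * #J := by
    refine le_trans ?_ hFq
    rw [hF]
    dsimp only
    rw [card_filter]
    push_cast
    have h1 := single_le_sum (f := fun vs : ℤ × ℤ => ∑ t ∈ J,
      (if (3 : ℤ) ∣ vs.1 * (t : ℤ) - vs.2 ∧ ∀ i, HS S (x (t' i)) (3 * (l : ℤ) + vs.1 * t) then (1 : ℝ) else 0))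
      (fun vs _ => sum_nonneg fun t _ => by split_ifs <;> norm_num) ((hVSm v s).2 ⟨hv, hs⟩)
    exact h1
  have hcov : {t ∈ J | (3 : ℤ) ∣ v * ((t : ℕ) : ℤ) - s} ⊆
      {t ∈ J | (3 : ℤ) ∣ v * ((t : ℕ) : ℤ) - s ∧ ∀ i, HS S (x (t' i)) (3 * (l : ℤ) + v * t)} ∪
        univ.biUnion fun i : Fin r => {t ∈ J | (3 : ℤ) ∣ v * ((t : ℕ) : ℤ) - s ∧ ¬ HS S (x (t' i)) (3 * (l : ℤ) + v * t)} := by
    intro t ht
    rw [mem_filter] at ht
    rw [mem_union, mem_filter, mem_biUnion]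
    by_cases h1 : ∀ i, HS S (x (t' i)) (3 * (l : ℤ) + v * t)
    · exact Or.inl ⟨ht.1, ht.2, h1⟩
    · push Not at h1
      obtain ⟨i, hi⟩ := h1
      exact Or.inr ⟨i, mem_univ _, mem_filter.2 ⟨ht.1, ht.2, hi⟩⟩
  have hD : ∀ i : Fin r, #{t ∈ J | (3 : ℤ) ∣ v * ((t : ℕ) : ℤ) - s ∧ ¬ HS S (x (t' i)) (3 * (l : ℤ) + v * t)} ≤
      Dc S u M (v * (s - τ i)) := by
    intro i
    unfold Dc
    have hb1 := hX _ (ht1' i)
    have hb2 := hX _ hl'
    have hτi := hτx i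
    refine card_le_card_of_injOn (fun t => (x (t' i) - (3 * (l : ℤ) + v * t)).natAbs) ?_ ?_
    · intro t ht
      rw [mem_coe, mem_filter, hJ, mem_Ioc] at ht
      obtain ⟨⟨h1, h2⟩, h3, h4⟩ := ht
      rw [mem_coe, mem_filter, mem_Ioc]
      dsimp only
      have h5 : S (x (t' i) - (3 * (l : ℤ) + v * t)).natAbs := by
        by_contra h6
        apply h4
        refine ⟨?_, h6⟩
        rcases hv with rfl | rfl <;> omega
      refine ⟨?_, ?_, h5⟩
      · rcases hv with rfl | rfl <;> constructor <;> omega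
      · rcases hv with rfl | rfl <;> omega
    · intro t ht t2 ht2 h
      rw [mem_coe, mem_filter, hJ, mem_Ioc] at ht ht2
      dsimp only at h
      rcases hv with rfl | rfl <;> omega
  have hcount := (card_le_card hcov).trans ((card_union_le _ _).trans (Nat.add_le_add_left card_biUnion_le _))
  have hcls := cls_ge v s hv (u + 2 * X) (M - 4 * X)
  rw [← hJ] at hcls
  have h1 : ((M - 4 * X) / 3 : ℕ) ≤ #{t ∈ J | (3 : ℤ) ∣ v * ((t : ℕ) : ℤ) - s ∧ ∀ i, HS S (x (t' i)) (3 * (l : ℤ) + v * t)} +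
      ∑ i, Dc S u M (v * (s - τ i)) := hcls.trans (hcount.trans (Nat.add_le_add_left (sum_le_sum fun i _ => hD i) _))
  have h2 : (((M - 4 * X) / 3 : ℕ) : ℝ) ≤ (#{t ∈ J | (3 : ℤ) ∣ v * ((t : ℕ) : ℤ) - s ∧ ∀ i, HS S (x (t' i)) (3 * (l : ℤ) + v * t)} : ℝ) +
      ∑ i, (Dc S u M (v * (s - τ i)) : ℝ) := by exact_mod_cast h1
  have h3 : (M : ℝ) ≤ 3 * (((M - 4 * X) / 3 : ℕ) : ℝ) + 4 * X + 2 := by
    have h4 : M ≤ 3 * ((M - 4 * X) / 3) + 4 * X + 2 := by omega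
    exact_mod_cast h4
  have h4 : ε / 2 * (#J : ℝ) ≤ ε / 2 * M := mul_le_mul_of_nonneg_left hJc (by positivity)
  linarith

open Classical in
theorem Dc_sum (S : ℕ → Prop) (u M : ℕ) : Dc S u M 0 + Dc S u M 1 + Dc S u M (-1) ≤ #{m ∈ Ioc u (u + M) | S m} := by
  unfold Dc
  rw [← card_union_of_disjoint, ← card_union_of_disjoint]
  · refine card_le_card fun m hm => ?_
    rw [mem_union, mem_union, mem_filter, mem_filter, mem_filter] at hm
    rw [mem_filter]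
    rcases hm with (h | h) | h
    · exact ⟨h.1, h.2.2⟩
    · exact ⟨h.1, h.2.2⟩
    · exact ⟨h.1, h.2.2⟩
  · rw [disjoint_left]
    intro m h1 h2
    rw [mem_union, mem_filter, mem_filter] at h1
    rw [mem_filter] at h2
    rcases h1 with h | h
    · have e1 := h.2.1
      have e2 := h2.2.1
      omega
    · have e1 := h.2.1
      have e2 := h2.2.1
      omega
  · rw [disjoint_left]
    intro m h1 h2
    rw [mem_filter] at h1 h2
    have e1 := h1.2.1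
    have e2 := h2.2.1
    omega

open Classical in
/-- **lower Banach density at least a third** -/
theorem dens3 (S : ℕ → Prop)
    (hP : ∀ κ : ℝ, 0 < κ → ∃ η : ℝ, 0 < η ∧ ∀ (m : ℕ) (z : ℕ → ℤ), 0 < m → (∀ i < m, (3 : ℤ) ∣ z i ∨ (3 : ℤ) ∣ z i - 1) →
      (∀ v, (mu m z v : ℝ) ≤ η * m) → (#(KQ S 4 m z) : ℝ) ≤ κ * (m : ℝ) ^ 4) (ε : ℝ) (hε : 0 < ε) :
    ∃ M₀ : ℕ, ∀ M : ℕ, M₀ ≤ M → ∀ u : ℕ, (1 / 3 - ε) * M ≤ #{m ∈ Ioc u (u + M) | S m} := by
  obtain ⟨ρ₂, hρ₂⟩ : ∃ ρ₂ : ℝ, ρ₂ = ε / 32 := ⟨_, rfl⟩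
  obtain ⟨ρ₃, hρ₃⟩ : ∃ ρ₃ : ℝ, ρ₃ = ε * ρ₂ / 64 := ⟨_, rfl⟩
  have hρ₂0 : 0 < ρ₂ := by rw [hρ₂]; positivity
  have hρ₃0 : 0 < ρ₃ := by rw [hρ₃]; positivity
  obtain ⟨η, hη, hP⟩ := hP (ε * ρ₃ / 128) (by positivity)
  by_cases h3 : ∃ (n : ℕ) (x : ℕ → ℤ), 0 < n ∧ (∀ i < n, (3 : ℤ) ∣ x i ∨ (3 : ℤ) ∣ x i - 1) ∧ (∀ v, (mu n x v : ℝ) ≤ η * n) ∧
      ρ₃ * (n : ℝ) ^ 3 ≤ #(KQ S 3 n x)
  · obtain ⟨n, x, hn, hcl, hx, hK⟩ := h3
    obtain ⟨M₀, hM₀⟩ := step S 3 η (ε * ρ₃ / 128) ρ₃ ε hη hρ₃0 hε (by linarith) hP n x hn hcl hx hK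
    refine ⟨M₀, fun M hM u => ?_⟩
    obtain ⟨τ, hτ, h⟩ := hM₀ M hM u
    have h1 := h 1 0 (Or.inl rfl) (Or.inl rfl)
    have h2 := h (-1) 0 (Or.inr rfl) (Or.inl rfl)
    have h3 := h 1 1 (Or.inl rfl) (Or.inr rfl)
    have h4 := h (-1) 1 (Or.inr rfl) (Or.inr rfl)
    have hS : ((Dc S u M 0 : ℕ) : ℝ) + (Dc S u M 1 : ℕ) + (Dc S u M (-1) : ℕ) ≤ #{m ∈ Ioc u (u + M) | S m} := by
      exact_mod_cast Dc_sum S u M
    rw [Fin.sum_univ_three] at h1 h2 h3 h4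
    rcases hτ 0 with e0 | e0 <;> rcases hτ 1 with e1 | e1 <;> rcases hτ 2 with e2 | e2 <;>
      rw [e0, e1, e2] at h1 h2 h3 h4 <;> norm_num at h1 h2 h3 h4 <;> linarith
  · by_cases h2 : ∃ (n : ℕ) (x : ℕ → ℤ), 0 < n ∧ (∀ i < n, (3 : ℤ) ∣ x i ∨ (3 : ℤ) ∣ x i - 1) ∧ (∀ v, (mu n x v : ℝ) ≤ η * n) ∧
        ρ₂ * (n : ℝ) ^ 2 ≤ #(KQ S 2 n x)
    · obtain ⟨n, x, hn, hcl, hx, hK⟩ := h2
      obtain ⟨M₀, hM₀⟩ := step S 2 η ρ₃ ρ₂ ε hη hρ₂0 hε (by linarith) (by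
        intro m z hm hz hmu
        by_contra h4
        exact h3 ⟨m, z, hm, hz, hmu, (not_le.1 h4).le⟩) n x hn hcl hx hK
      refine ⟨M₀, fun M hM u => ?_⟩
      obtain ⟨τ, hτ, h⟩ := hM₀ M hM u
      have h1 := h 1 0 (Or.inl rfl) (Or.inl rfl)
      have h2 := h (-1) 0 (Or.inr rfl) (Or.inl rfl)
      have h3 := h 1 1 (Or.inl rfl) (Or.inr rfl)
      have h4 := h (-1) 1 (Or.inr rfl) (Or.inr rfl)
      have hS : ((Dc S u M 0 : ℕ) : ℝ) + (Dc S u M 1 : ℕ) + (Dc S u M (-1) : ℕ) ≤ #{m ∈ Ioc u (u + M) | S m} := by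
        exact_mod_cast Dc_sum S u M
      have hD0 : (0 : ℝ) ≤ (Dc S u M 0 : ℕ) := Nat.cast_nonneg _
      have hD1 : (0 : ℝ) ≤ (Dc S u M 1 : ℕ) := Nat.cast_nonneg _
      have hD2 : (0 : ℝ) ≤ (Dc S u M (-1) : ℕ) := Nat.cast_nonneg _
      rw [Fin.sum_univ_two] at h1 h2 h3 h4
      rcases hτ 0 with e0 | e0 <;> rcases hτ 1 with e1 | e1 <;>
        rw [e0, e1] at h1 h2 h3 h4 <;> norm_num at h1 h2 h3 h4 <;> linarith
    · obtain ⟨n, hn⟩ := exists_nat_gt (1 / η)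
      have hn0 : (0 : ℝ) < n := lt_trans (by positivity) hn
      have hn1 : 1 ≤ η * n := by
        rw [div_lt_iff₀ hη] at hn
        linarith
      obtain ⟨x, hx⟩ : ∃ x : ℕ → ℤ, x = fun i : ℕ => 3 * (i : ℤ) := ⟨_, rfl⟩
      obtain ⟨M₀, hM₀⟩ := step S 1 η ρ₂ 1 ε hη one_pos hε (by rw [hρ₂]; linarith) (by
        intro m z hm hz hmu
        by_contra h4
        exact h2 ⟨m, z, hm, hz, hmu, (not_le.1 h4).le⟩) n x (by exact_mod_cast hn0) (by
          intro i _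
          left
          rw [hx]
          exact Dvd.intro _ rfl) (by
          intro v
          refine le_trans ?_ hn1
          exact_mod_cast mu_inj n x (fun i j h => by
            rw [hx] at h
            dsimp only at h
            omega) v) (by
          have h5 : KQ S 1 n x = Fintype.piFinset (fun _ : Fin 1 => range n) := by
            unfold KQ
            refine filter_true_of_mem fun t _ i j hij => ?_
            exact absurd (Subsingleton.elim i j) hij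
          rw [h5, Fintype.card_piFinset]
          simp)
      refine ⟨M₀, fun M hM u => ?_⟩
      obtain ⟨τ, hτ, h⟩ := hM₀ M hM u
      have h1 := h 1 0 (Or.inl rfl) (Or.inl rfl)
      have h3 := h 1 1 (Or.inl rfl) (Or.inr rfl)
      have hS : ((Dc S u M 0 : ℕ) : ℝ) + (Dc S u M 1 : ℕ) + (Dc S u M (-1) : ℕ) ≤ #{m ∈ Ioc u (u + M) | S m} := by
        exact_mod_cast Dc_sum S u M
      have hD0 : (0 : ℝ) ≤ (Dc S u M 0 : ℕ) := Nat.cast_nonneg _
      have hD1 : (0 : ℝ) ≤ (Dc S u M 1 : ℕ) := Nat.cast_nonneg _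
      have hD2 : (0 : ℝ) ≤ (Dc S u M (-1) : ℕ) := Nat.cast_nonneg _
      rw [Fin.sum_univ_one] at h1 h3
      rcases hτ 0 with e0 | e0 <;> rw [e0] at h1 h3 <;> norm_num at h1 h3 <;> linarith

end Pool.Agent.MM
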