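import Pool.Agent.helper72.MM.O1
import Pool.Agent.helper72.MM.O2

/-!
# Project MM (MP_bf63dc_nt): a third of the iterates of every case of Q1
-/

set_option autoImplicit false

namespace Pool.Agent.MM

open Finset Pool.Agent.AT Pool.Agent.IT

theorem mu_inj_on {α : Type} (n : ℕ) (f : ℕ → α) (hf : ∀ i < n, ∀ j < n, f i = f j → i = j) (x : α) : mu n f x ≤ 1 := by
  classical
  unfold mu
  rw [card_le_one]
  intro i hi j hj
  rw [mem_filter] at hi hj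
  exact hf i (mem_range.1 hi.1) j (mem_range.1 hj.1) (hi.2.trans hj.2.symm)

theorem quad_orb (hQ : Qk 4) (κ : ℝ) (hκ : 0 < κ) : ∃ η : ℝ, 0 < η ∧ ∀ (a b : ℕ) (c : ℤ), Ad a b c → ∀ (m : ℕ) (z : ℕ → ℤ), 0 < m →
    (∀ i < m, (3 : ℤ) ∣ z i ∨ (3 : ℤ) ∣ z i - 1) → (∀ v, (mu m z v : ℝ) ≤ η * m) → (#(KQ (It a b c) 4 m z) : ℝ) ≤ κ * (m : ℝ) ^ 4 := by
  classical
  obtain ⟨η, hη, hlow⟩ := quad_adm hQ κ hκ
  refine ⟨η, hη, ?_⟩
  intro a b c hAd n z hn hcl hz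
  obtain ⟨X, hX⟩ : ∃ X : ℕ, ∀ i < n, (z i).natAbs ≤ X :=
    ⟨∑ i ∈ range n, (z i).natAbs, fun i hi => single_le_sum (f := fun i => (z i).natAbs) (fun _ _ => Nat.zero_le _) (mem_range.2 hi)⟩
  obtain ⟨x, hx⟩ : ∃ x : ℕ → ℕ, x = fun i => (z i + 3 * X).toNat := ⟨_, rfl⟩
  have hxz : ∀ i < n, (x i : ℤ) = z i + 3 * X := by
    intro i hi
    have h1 := hX i hi
    rw [hx]
    dsimp only
    omega
  obtain ⟨f, hpos, hAdm, hinj, hpair⟩ := orbF a b c hAd n x (Or.inr (Or.inr ⟨2, fun i hi => by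
    have h1 := hxz i hi
    have h2 := hcl i hi
    omega⟩))
  have hmu : ∀ v, (mu n f v : ℝ) ≤ η * n := mu_of η n z f (fun i hi j hj hij => by
    have h1 := hxz i hi
    have h2 := hxz j hj
    have h3 := hinj i hi j hj hij
    omega) hη.le hz
  refine le_trans (Nat.cast_le.2 (card_le_card fun t ht => ?_)) (hlow n f hn (fun i _ => hpos i) hAdm hmu)
  unfold KQ at ht
  rw [mem_filter] at ht ⊢
  refine ⟨ht.1, fun i j hij hP => ?_⟩
  have hi := mem_range.1 ((Fintype.mem_piFinset.1 ht.1) i)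
  have hj := mem_range.1 ((Fintype.mem_piFinset.1 ht.1) j)
  obtain ⟨h1, h2⟩ := ht.2 i j hij
  have e1 := hxz _ hi
  have e2 := hxz _ hj
  apply h2
  rcases lt_trichotomy (x (t i)) (x (t j)) with h3 | h3 | h3
  · have h4 := hpair _ hi _ hj h3 hP
    have e : (z (t i) - z (t j)).natAbs = x (t j) - x (t i) := by omega
    rw [e]
    exact h4
  · exact absurd (show z (t i) = z (t j) by omega) h1
  · have h4 := hpair _ hj _ hi h3 (PP_symm _ _ hP)
    have e : (z (t i) - z (t j)).natAbs = x (t i) - x (t j) := by omega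
    rw [e]
    exact h4

open Classical in
/-- **a third of the iterates of every case of Q1 are true** -/
theorem orb_dens (hQ : Qk 4) (a b : ℕ) (c : ℤ) (hAd : Ad a b c) (ε : ℝ) (hε : 0 < ε) :
    ∃ M₀ : ℕ, ∀ M : ℕ, M₀ ≤ M → ∀ u : ℕ, (1 / 3 - ε) * M ≤ #{m ∈ Ioc u (u + M) | It a b c m} :=
  dens3 (It a b c) (fun κ hκ => by
    obtain ⟨η, hη, h⟩ := quad_orb hQ κ hκ
    exact ⟨η, hη, h a b c hAd⟩) ε hε

open Classical in
/-- the pairs of a set of exponents -/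
theorem orb_pairs (hQ : Qk 4) (ε : ℝ) (hε : 0 < ε) : ∃ N : ℕ, ∀ (a b : ℕ) (c : ℤ), Ad a b c → ∀ E : Finset ℕ, N ≤ #E →
    ((3 : ℤ) ∣ a * b * c ∨ ¬ (3 : ℤ) ∣ (a : ℤ) - b ∨ ∃ r : ℤ, ∀ e ∈ E, ¬ (3 : ℤ) ∣ ((e : ℕ) : ℤ) - r) →
      (1 / 3 - ε) * (#E : ℝ) ^ 2 ≤ 2 * #{p ∈ E ×ˢ E | p.1 < p.2 ∧ It a b c (p.2 - p.1)} := by
  obtain ⟨η, hη, -, hlow⟩ := orb_low hQ ε hε
  obtain ⟨N, hN⟩ := exists_nat_gt (1 / η)
  have hN0 : (0 : ℝ) < N := lt_trans (by positivity) hN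
  refine ⟨N, ?_⟩
  intro a b c hAd E hE h3
  have hn : 0 < #E := by
    have h1 : 0 < N := by exact_mod_cast hN0
    omega
  have hn1 : 1 ≤ η * #E := by
    rw [div_lt_iff₀ hη] at hN
    have h1 : (N : ℝ) ≤ #E := by exact_mod_cast hE
    nlinarith
  obtain ⟨x, hx⟩ : ∃ x : ℕ → ℕ, x = fun i => if h : i < #E then ((E.equivFin.symm ⟨i, h⟩ : E) : ℕ) else 0 := ⟨_, rfl⟩
  have hxv : ∀ i, ∀ h : i < #E, x i = ((E.equivFin.symm ⟨i, h⟩ : E) : ℕ) := by
    intro i h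
    rw [hx]
    dsimp only
    rw [dif_pos h]
  have hxE : ∀ i < #E, x i ∈ E := by
    intro i h
    rw [hxv i h]
    exact (E.equivFin.symm ⟨i, h⟩).2
  have hinj : ∀ i < #E, ∀ j < #E, x i = x j → i = j := by
    intro i hi j hj hij
    rw [hxv i hi, hxv j hj] at hij
    have h1 := E.equivFin.symm.injective (Subtype.ext hij)
    exact congrArg (fun z : Fin #E => (z : ℕ)) h1
  have hmu : ∀ v, (mu #E x v : ℝ) ≤ η * #E := by
    intro v
    refine le_trans ?_ hn1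
    exact_mod_cast mu_inj_on #E x hinj v
  have hmain := hlow a b c hAd #E x hn (by
    rcases h3 with h3 | h3 | ⟨r, h3⟩
    · exact Or.inl h3
    · exact Or.inr (Or.inl h3)
    · exact Or.inr (Or.inr ⟨r, fun i hi => h3 _ (hxE i hi)⟩)) hmu
  refine hmain.trans ?_
  rw [cn_eq]
  have h1 : #{p ∈ range #E ×ˢ range #E | RS (It a b c) (x p.1) (x p.2)} ≤ #{p ∈ E ×ˢ E | RS (It a b c) p.1 p.2} := by
    refine card_le_card_of_injOn (fun p => (x p.1, x p.2)) ?_ ?_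
    · intro p hp
      rw [mem_coe, mem_filter, mem_product, mem_range, mem_range] at hp
      rw [mem_coe, mem_filter, mem_product]
      exact ⟨⟨hxE _ hp.1.1, hxE _ hp.1.2⟩, hp.2⟩
    · intro p hp q hq h
      rw [mem_coe, mem_filter, mem_product, mem_range, mem_range] at hp hq
      dsimp only at h
      obtain ⟨h1, h2⟩ := Prod.mk.inj h
      exact Prod.ext (hinj _ hp.1.1 _ hq.1.1 h1) (hinj _ hp.1.2 _ hq.1.2 h2)
  have h2 : {p ∈ E ×ˢ E | RS (It a b c) p.1 p.2} ⊆ {p ∈ E ×ˢ E | p.1 < p.2 ∧ It a b c (p.2 - p.1)} ∪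
      ({p ∈ E ×ˢ E | p.1 < p.2 ∧ It a b c (p.2 - p.1)}).image Prod.swap := by
    rintro ⟨u, v⟩ hp
    rw [mem_filter, mem_product] at hp
    obtain ⟨⟨hu, hv⟩, h4, h5⟩ := hp
    dsimp only at hu hv h4 h5
    rw [mem_union, mem_image]
    rcases lt_or_gt_of_ne h4 with h6 | h6
    · left
      rw [mem_filter, mem_product]
      refine ⟨⟨hu, hv⟩, h6, ?_⟩
      have e : u - v + (v - u) = v - u := by omega
      rw [e] at h5
      exact h5
    · right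
      refine ⟨(v, u), ?_, rfl⟩
      rw [mem_filter, mem_product]
      refine ⟨⟨hv, hu⟩, h6, ?_⟩
      have e : u - v + (v - u) = u - v := by omega
      rw [e] at h5
      exact h5
  have h3 := h1.trans ((card_le_card h2).trans ((card_union_le _ _).trans (Nat.add_le_add_left card_image_le _)))
  have h4 : (#{p ∈ range #E ×ˢ range #E | RS (It a b c) (x p.1) (x p.2)} : ℝ) ≤
      #{p ∈ E ×ˢ E | p.1 < p.2 ∧ It a b c (p.2 - p.1)} + #{p ∈ E ×ˢ E | p.1 < p.2 ∧ It a b c (p.2 - p.1)} := by exact_mod_cast h3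
  linarith

end Pool.Agent.MM
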