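import Mathlib

/-!
# Project MM (MP_bf63dc_nt): minimal measures, the combinatorial part

Let `R` be a symmetric relation between positive integers which depends only on the quotient, and suppose that among any four different
positive integers two are related or have one of finitely many exceptional quotients (`Z`). Then for every `ε > 0` there is a finite
sequence `s 0, ..., s (n - 1)` such that for ALL `a, b ≥ 1` at least `(1/3 - ε) n ^ 2` of the pairs `(s i * a, s j * b)` are related.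

Proof. Class of all finite sequences which take every value at most `η n` times. By Turan's theorem at least `(1/3 - ε/2) n ^ 2` pairs of such a
sequence are related. Take a sequence of the class with (almost) the smallest proportion of related pairs. The sequence `s i * a`, `s j * b` of
length `2 n` is in the class too, its proportion is the mean of the proportion of `s` and of the proportion of the related pairs
`(s i * a, s j * b)`; so the latter cannot be smaller than the infimum `- ε/2`.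
-/

set_option autoImplicit false

namespace Pool.Agent.MM

open Finset

/-- Turan's theorem: a third of all pairs (copy of `Pool.Agent.helper85.FD.third`) -/
theorem third {Q : ℕ → ℕ → Prop} [DecidablePred fun ab : ℕ × ℕ => ab.1 ≠ ab.2 ∧ Q ab.1 ab.2]
    (hQ : ∀ a b, Q a b → Q b a) (S : Finset ℕ)
    (h5 : ∀ a : Fin 4 → ℕ, Function.Injective a → (∀ j, a j ∈ S) →
      ∃ i j, i ≠ j ∧ Q (a i) (a j)) :
    (S.card : ℝ) ^ 2 / 3 - S.card ≤
      ((S ×ˢ S).filter (fun ab => ab.1 ≠ ab.2 ∧ Q ab.1 ab.2)).card := by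
  classical
  let G : SimpleGraph S :=
    { Adj := fun a b => a ≠ b ∧ ¬ Q a b
      symm := ⟨fun a b hab => ⟨hab.1.symm, fun h => hab.2 (hQ _ _ h)⟩⟩
      loopless := ⟨fun a h => h.1 rfl⟩ }
  have hfree : G.CliqueFree (3 + 1) := by
    intro s hs
    obtain ⟨f⟩ : Nonempty (Fin 4 ≃ s) := by
      have : Fintype.card s = 4 := by rw [Fintype.card_coe]; exact hs.card_eq
      exact ⟨(Fintype.equivFinOfCardEq this).symm⟩
    obtain ⟨i, j, hij, hg⟩ := h5 (fun i => ((f i : S) : ℕ))
      (fun i j hij => f.injective (Subtype.ext (Subtype.ext hij))) (fun i => (f i : S).2)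
    have hne : (f i : S) ≠ (f j : S) := fun h => hij (f.injective (Subtype.ext h))
    exact (hs.isClique (f i).2 (f j).2 hne).2 hg
  have h1 : G.edgeFinset.card ≤ #(SimpleGraph.turanGraph S.card 3).edgeFinset := by
    have h1 := hfree.card_edgeFinset_le
    simp only [Fintype.card_coe] at h1
    rw [SimpleGraph.card_edgeFinset_turanGraph]
    exact h1
  have h2 := SimpleGraph.two_mul_card_edgeFinset (G := G)
  have h3 := SimpleGraph.mul_card_edgeFinset_turanGraph_le (n := S.card) (r := 3)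
  obtain ⟨good, hgood⟩ : ∃ good, good = (S ×ˢ S).filter (fun ab => ab.1 ≠ ab.2 ∧ Q ab.1 ab.2) :=
    ⟨_, rfl⟩
  obtain ⟨bad, hbad⟩ : ∃ bad, bad = (S ×ˢ S).filter (fun ab => ab.1 ≠ ab.2 ∧ ¬ Q ab.1 ab.2) :=
    ⟨_, rfl⟩
  rw [← hgood]
  have e2 : bad.card = #(univ.filter fun (x : S × S) => G.Adj x.1 x.2) := by
    symm
    refine card_bij (fun x _ => ((x.1 : ℕ), (x.2 : ℕ))) ?_ ?_ ?_
    · rintro ⟨x, y⟩ hxy
      rw [mem_filter] at hxy
      rw [hbad, mem_filter, mem_product]
      exact ⟨⟨x.2, y.2⟩, fun h => hxy.2.1 (Subtype.ext h), hxy.2.2⟩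
    · rintro ⟨x, y⟩ _ ⟨x', y'⟩ _ h
      have h4 := (Prod.mk.inj h)
      exact Prod.ext (Subtype.ext h4.1) (Subtype.ext h4.2)
    · rintro ⟨x, y⟩ hxy
      rw [hbad, mem_filter, mem_product] at hxy
      refine ⟨(⟨x, hxy.1.1⟩, ⟨y, hxy.1.2⟩), ?_, rfl⟩
      rw [mem_filter]
      exact ⟨mem_univ _, fun h => hxy.2.1 (congrArg Subtype.val h), hxy.2.2⟩
  have e3 : good.card + bad.card = #((S ×ˢ S).filter (fun ab => ab.1 ≠ ab.2)) := by
    have h7 : good ∪ bad = (S ×ˢ S).filter (fun ab => ab.1 ≠ ab.2) := by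
      rw [hgood, hbad]
      ext ab
      simp only [mem_union, mem_filter]
      tauto
    have h8 : Disjoint good bad := by
      rw [hgood, hbad, disjoint_left]
      intro ab h9 h10
      rw [mem_filter] at h9 h10
      exact h10.2.2 h9.2.2
    rw [← h7, card_union_of_disjoint h8]
  have e4 : #((S ×ˢ S).filter (fun ab => ab.1 ≠ ab.2)) + S.card = S.card ^ 2 := by
    have h5 := card_filter_add_card_filter_not (s := S ×ˢ S) (fun ab => ab.1 = ab.2)
    have h6 : #((S ×ˢ S).filter (fun ab => ab.1 = ab.2)) = S.card := by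
      have h7 : (S ×ˢ S).filter (fun ab => ab.1 = ab.2) = S.diag := by
        ext ab
        simp only [mem_filter, mem_product, mem_diag]
        constructor
        · rintro ⟨⟨h8, -⟩, h9⟩
          exact ⟨h8, h9⟩
        · rintro ⟨h8, h9⟩
          exact ⟨⟨h8, h9 ▸ h8⟩, h9⟩
      rw [h7, diag_card]
    rw [h6, card_product] at h5
    rw [sq, ← h5, add_comm]
  have h4 : 3 * bad.card ≤ 2 * S.card ^ 2 := by
    have h5 : bad.card = 2 * G.edgeFinset.card := by rw [e2, h2]
    omega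
  have h5 : 3 * good.card + 3 * S.card + 2 * S.card ^ 2 ≥ 3 * S.card ^ 2 := by omega
  have h6 : (3 * good.card + 3 * S.card + 2 * S.card ^ 2 : ℝ) ≥ 3 * (S.card : ℝ) ^ 2 := by exact_mod_cast h5
  linarith

/-- the number of the pairs `(i, j)` with `R (s i) (t j)` -/
noncomputable def cnt (R : ℕ → ℕ → Prop) (n : ℕ) (s t : ℕ → ℕ) : ℝ := by
  classical
  exact ∑ i ∈ range n, ∑ j ∈ range n, if R (s i) (t j) then (1 : ℝ) else 0

/-- the number of the pairs `(i, j)` with `R (s i) (t j)`, as a cardinality -/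
theorem cnt_eq (R : ℕ → ℕ → Prop) (n : ℕ) (s t : ℕ → ℕ) [DecidablePred fun p : ℕ × ℕ => R (s p.1) (t p.2)] :
    cnt R n s t = #{p ∈ range n ×ˢ range n | R (s p.1) (t p.2)} := by
  classical
  unfold cnt
  rw [card_filter, sum_product]
  push_cast
  refine sum_congr rfl fun i _ => sum_congr rfl fun j _ => ?_
  split_ifs <;> rfl

theorem cnt_nonneg (R : ℕ → ℕ → Prop) (n : ℕ) (s t : ℕ → ℕ) : 0 ≤ cnt R n s t := by
  classical
  unfold cnt
  exact sum_nonneg fun i _ => sum_nonneg fun j _ => by split_ifs <;> norm_num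

/-- the sequence takes every value at most `η n` times -/
def Spread (η : ℝ) (n : ℕ) (s : ℕ → ℕ) : Prop :=
  0 < n ∧ (∀ i, 0 < s i) ∧ ∀ x : ℕ, (#{i ∈ range n | s i = x} : ℝ) ≤ η * n

/-- a third of the pairs of a sequence are related -/
theorem low_bound (R Z : ℕ → ℕ → Prop) (hR : ∀ s t, R s t → R t s) (hZ : ∀ s t, Z s t → Z t s) (k : ℕ)
    (hk : ∀ s, 0 < s → ∃ T : Finset ℕ, #T ≤ k ∧ ∀ t, Z s t → t ∈ T)
    (h4 : ∀ a : Fin 4 → ℕ, (∀ i, 0 < a i) → Function.Injective a → ∃ i j, i ≠ j ∧ (R (a i) (a j) ∨ Z (a i) (a j)))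
    (η : ℝ) (n : ℕ) (s : ℕ → ℕ) (h : Spread η n s) :
    (1 / 3 - (k + 2) * η) * (n : ℝ) ^ 2 ≤ cnt R n s s := by
  classical
  obtain ⟨hn, hs, hm⟩ := h
  have hn0 : (0 : ℝ) < n := by exact_mod_cast hn
  obtain ⟨Q, hQ⟩ : ∃ Q : ℕ → ℕ → Prop, Q = fun i j => R (s i) (s j) ∨ Z (s i) (s j) ∨ s i = s j := ⟨_, rfl⟩
  have hsym : ∀ a b, Q a b → Q b a := by
    intro a b h
    rw [hQ] at h ⊢
    rcases h with h | h | h
    · exact Or.inl (hR _ _ h)
    · exact Or.inr (Or.inl (hZ _ _ h))
    · exact Or.inr (Or.inr h.symm)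
  have h5 := third (Q := Q) hsym (range n) (by
    intro a ha _
    by_cases hinj : Function.Injective fun i => s (a i)
    · obtain ⟨i, j, hij, h⟩ := h4 (fun i => s (a i)) (fun i => hs _) hinj
      refine ⟨i, j, hij, ?_⟩
      rw [hQ]
      rcases h with h | h
      · exact Or.inl h
      · exact Or.inr (Or.inl h)
    · rw [Function.Injective] at hinj
      push Not at hinj
      obtain ⟨i, j, h, hij⟩ := hinj
      refine ⟨i, j, hij, ?_⟩
      rw [hQ]
      exact Or.inr (Or.inr h))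
  rw [card_range] at h5
  have hsub : ((range n) ×ˢ (range n)).filter (fun ab => ab.1 ≠ ab.2 ∧ Q ab.1 ab.2) ⊆
      (((range n) ×ˢ (range n)).filter (fun p => R (s p.1) (s p.2))) ∪
        ((((range n) ×ˢ (range n)).filter (fun p => Z (s p.1) (s p.2))) ∪
        (((range n) ×ˢ (range n)).filter (fun p => s p.1 = s p.2))) := by
    intro p hp
    rw [mem_filter, hQ] at hp
    rw [mem_union, mem_union, mem_filter, mem_filter, mem_filter]
    rcases hp.2.2 with h | h | h
    · exact Or.inl ⟨hp.1, h⟩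
    · exact Or.inr (Or.inl ⟨hp.1, h⟩)
    · exact Or.inr (Or.inr ⟨hp.1, h⟩)
  have hA : (#(((range n) ×ˢ (range n)).filter (fun p => Z (s p.1) (s p.2))) : ℝ) ≤ k * η * (n : ℝ) ^ 2 := by
    rw [card_filter, sum_product]
    push_cast
    have h6 : ∀ i ∈ range n, ∑ j ∈ range n, (if Z (s i) (s j) then (1 : ℝ) else 0) ≤ k * (η * n) := by
      intro i _
      obtain ⟨T, hT, hT2⟩ := hk (s i) (hs i)
      have h7 : ∑ j ∈ range n, (if Z (s i) (s j) then (1 : ℝ) else 0) ≤
          ∑ j ∈ range n, ∑ x ∈ T, (if s j = x then (1 : ℝ) else 0) := by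
        refine sum_le_sum fun j _ => ?_
        split_ifs with hz
        · have h8 := hT2 _ hz
          have h9 : (if s j = s j then (1 : ℝ) else 0) ≤ ∑ x ∈ T, (if s j = x then (1 : ℝ) else 0) :=
            single_le_sum (f := fun x => if s j = x then (1 : ℝ) else 0) (fun x _ => by split_ifs <;> norm_num) h8
          rw [if_pos rfl] at h9
          exact h9
        · exact sum_nonneg fun x _ => by split_ifs <;> norm_num
      refine h7.trans ?_
      rw [sum_comm]
      have h8 : ∀ x ∈ T, ∑ j ∈ range n, (if s j = x then (1 : ℝ) else 0) ≤ η * n := by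
        intro x _
        have h9 := hm x
        rw [card_filter] at h9
        push_cast at h9
        exact h9
      have hη : 0 ≤ η * n := le_trans (Nat.cast_nonneg _) (hm 0)
      calc ∑ x ∈ T, ∑ j ∈ range n, (if s j = x then (1 : ℝ) else 0) ≤ ∑ _x ∈ T, η * n := sum_le_sum h8
        _ = #T * (η * n) := by rw [sum_const, nsmul_eq_mul]
        _ ≤ k * (η * n) := mul_le_mul_of_nonneg_right (by exact_mod_cast hT) hη
    calc ∑ i ∈ range n, ∑ j ∈ range n, (if Z (s i) (s j) then (1 : ℝ) else 0) ≤ ∑ _i ∈ range n, k * (η * n) := sum_le_sum h6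
      _ = k * η * (n : ℝ) ^ 2 := by rw [sum_const, nsmul_eq_mul, card_range]; ring
  have hB : (#(((range n) ×ˢ (range n)).filter (fun p => s p.1 = s p.2)) : ℝ) ≤ η * (n : ℝ) ^ 2 := by
    rw [card_filter, sum_product]
    push_cast
    have h6 : ∀ i ∈ range n, ∑ j ∈ range n, (if s i = s j then (1 : ℝ) else 0) ≤ η * n := by
      intro i _
      have h9 := hm (s i)
      rw [card_filter] at h9
      push_cast at h9
      refine le_trans (le_of_eq (sum_congr rfl fun j _ => ?_)) h9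
      by_cases hj : s i = s j
      · rw [if_pos hj, if_pos hj.symm]
      · rw [if_neg hj, if_neg fun h => hj h.symm]
    calc ∑ i ∈ range n, ∑ j ∈ range n, (if s i = s j then (1 : ℝ) else 0) ≤ ∑ _i ∈ range n, η * n := sum_le_sum h6
      _ = η * (n : ℝ) ^ 2 := by rw [sum_const, nsmul_eq_mul, card_range]; ring
  have hC : (n : ℝ) ≤ η * (n : ℝ) ^ 2 := by
    have h6 : (1 : ℝ) ≤ η * n := by
      refine le_trans ?_ (hm (s 0))
      have h7 : 1 ≤ #{i ∈ range n | s i = s 0} :=
        card_pos.2 ⟨0, mem_filter.2 ⟨mem_range.2 hn, rfl⟩⟩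
      exact_mod_cast h7
    calc (n : ℝ) = 1 * n := by ring
      _ ≤ (η * n) * n := mul_le_mul_of_nonneg_right h6 hn0.le
      _ = η * (n : ℝ) ^ 2 := by ring
  have h7 := (card_le_card hsub).trans ((card_union_le _ _).trans
    (Nat.add_le_add_left (card_union_le _ _) _))
  have h8 : (#(((range n) ×ˢ (range n)).filter (fun ab => ab.1 ≠ ab.2 ∧ Q ab.1 ab.2)) : ℝ) ≤
      #(((range n) ×ˢ (range n)).filter (fun p => R (s p.1) (s p.2))) +
        (#(((range n) ×ˢ (range n)).filter (fun p => Z (s p.1) (s p.2))) +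
        #(((range n) ×ˢ (range n)).filter (fun p => s p.1 = s p.2))) := by exact_mod_cast h7
  rw [cnt_eq]
  linarith

/-- the sequence `s i * a`, `s j * b` of length `2 n` -/
def two (n a b : ℕ) (s : ℕ → ℕ) (i : ℕ) : ℕ := if i < n then s i * a else s (i - n) * b

theorem two_spread (η : ℝ) (n a b : ℕ) (s : ℕ → ℕ) (ha : 1 ≤ a) (hb : 1 ≤ b) (h : Spread η n s) :
    Spread η (n + n) (two n a b s) := by
  classical
  obtain ⟨hn, hs, hm⟩ := h
  refine ⟨by omega, ?_, ?_⟩
  · intro i
    unfold two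
    split_ifs
    · exact Nat.mul_pos (hs _) ha
    · exact Nat.mul_pos (hs _) hb
  · intro x
    have h1 : ∀ c : ℕ, 1 ≤ c → (#{i ∈ range n | s i * c = x} : ℝ) ≤ η * n := by
      intro c hc
      refine le_trans ?_ (hm (x / c))
      refine Nat.cast_le.2 (card_le_card ?_)
      intro i hi
      rw [mem_filter] at hi ⊢
      refine ⟨hi.1, ?_⟩
      rw [← hi.2]
      exact (Nat.mul_div_cancel _ hc).symm
    have h2 : (#{i ∈ range (n + n) | two n a b s i = x} : ℝ) = #{i ∈ range n | s i * a = x} + #{i ∈ range n | s i * b = x} := by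
      rw [card_filter, card_filter, card_filter, sum_range_add]
      push_cast
      refine congrArg₂ (fun x y : ℝ => x + y) (sum_congr rfl fun i hi => ?_) (sum_congr rfl fun i _ => ?_)
      · unfold two
        rw [if_pos (mem_range.1 hi)]
      · unfold two
        rw [if_neg (show ¬ n + i < n by omega), Nat.add_sub_cancel_left]
    rw [h2]
    have h3 := h1 a ha
    have h4 := h1 b hb
    push_cast
    linarith

theorem two_sum (n a b : ℕ) (s : ℕ → ℕ) (F : ℕ → ℝ) :
    ∑ i ∈ range (n + n), F (two n a b s i) = ∑ i ∈ range n, F (s i * a) + ∑ i ∈ range n, F (s i * b) := by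
  rw [sum_range_add]
  refine congrArg₂ (fun x y : ℝ => x + y) (sum_congr rfl fun i hi => ?_) (sum_congr rfl fun i _ => ?_)
  · unfold two
    rw [if_pos (mem_range.1 hi)]
  · unfold two
    rw [if_neg (show ¬ n + i < n by omega), Nat.add_sub_cancel_left]

theorem two_cnt (R : ℕ → ℕ → Prop) (hR : ∀ s t, R s t → R t s) (hsc : ∀ c s t, 1 ≤ c → (R (s * c) (t * c) ↔ R s t))
    (n a b : ℕ) (s : ℕ → ℕ) (ha : 1 ≤ a) (hb : 1 ≤ b) :
    cnt R (n + n) (two n a b s) (two n a b s) = 2 * cnt R n s s + 2 * cnt R n (fun i => s i * a) (fun j => s j * b) := by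
  classical
  have e1 : cnt R (n + n) (two n a b s) (two n a b s) =
      cnt R n (fun i => s i * a) (fun i => s i * a) + cnt R n (fun i => s i * a) (fun i => s i * b) +
      (cnt R n (fun i => s i * b) (fun i => s i * a) + cnt R n (fun i => s i * b) (fun i => s i * b)) := by
    have hj : ∀ u : ℕ, (∑ j ∈ range (n + n), if R u (two n a b s j) then (1 : ℝ) else 0) =
        (∑ j ∈ range n, if R u (s j * a) then (1 : ℝ) else 0) + ∑ j ∈ range n, if R u (s j * b) then (1 : ℝ) else 0 :=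
      fun u => two_sum n a b s fun v => if R u v then (1 : ℝ) else 0
    unfold cnt
    rw [two_sum n a b s fun u => ∑ j ∈ range (n + n), if R u (two n a b s j) then (1 : ℝ) else 0]
    simp only [hj, sum_add_distrib]
  have e2 : ∀ c : ℕ, 1 ≤ c → cnt R n (fun i => s i * c) (fun i => s i * c) = cnt R n s s := by
    intro c hc
    unfold cnt
    simp only [hsc _ _ _ hc]
  have e3 : cnt R n (fun i => s i * b) (fun i => s i * a) = cnt R n (fun i => s i * a) (fun i => s i * b) := by
    have h1 : ∀ x y : ℕ, R x y ↔ R y x := fun x y => ⟨hR x y, hR y x⟩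
    unfold cnt
    rw [sum_comm]
    refine sum_congr rfl fun i _ => sum_congr rfl fun j _ => ?_
    simp only [h1 (s j * b) (s i * a)]
  rw [e1, e2 a ha, e2 b hb, e3]
  ring

/-- **a third near every pair** -/
theorem min_third (R Z : ℕ → ℕ → Prop) (hR : ∀ s t, R s t → R t s) (hsc : ∀ c s t, 1 ≤ c → (R (s * c) (t * c) ↔ R s t))
    (hZ : ∀ s t, Z s t → Z t s) (k : ℕ) (hk : ∀ s, 0 < s → ∃ T : Finset ℕ, #T ≤ k ∧ ∀ t, Z s t → t ∈ T)
    (h4 : ∀ a : Fin 4 → ℕ, (∀ i, 0 < a i) → Function.Injective a → ∃ i j, i ≠ j ∧ (R (a i) (a j) ∨ Z (a i) (a j)))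
    (ε : ℝ) (hε : 0 < ε) : ∃ (n : ℕ) (s : ℕ → ℕ), 0 < n ∧ (∀ i, 0 < s i) ∧ ∀ a b : ℕ, 1 ≤ a → 1 ≤ b →
      (1 / 3 - ε) * (n : ℝ) ^ 2 ≤ cnt R n (fun i => s i * a) (fun j => s j * b) := by
  classical
  have hk2 : (0 : ℝ) < k + 2 := by positivity
  obtain ⟨η, hη⟩ : ∃ η : ℝ, η = ε / (2 * (k + 2)) := ⟨_, rfl⟩
  have hη0 : 0 < η := by rw [hη]; positivity
  have hη1 : (k + 2) * η = ε / 2 := by rw [hη]; field_simp
  obtain ⟨A, hA⟩ : ∃ A : Set ℝ, A = {x | ∃ (n : ℕ) (s : ℕ → ℕ), Spread η n s ∧ x = cnt R n s s / (n : ℝ) ^ 2} := ⟨_, rfl⟩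
  have hne : A.Nonempty := by
    obtain ⟨n, hn⟩ := exists_nat_gt (1 / η)
    have hn0 : (0 : ℝ) < n := lt_trans (by positivity) hn
    have hn1 : 1 ≤ η * n := by
      rw [div_lt_iff₀ hη0] at hn
      linarith
    refine ⟨cnt R n (fun i => i + 1) (fun i => i + 1) / (n : ℝ) ^ 2, ?_⟩
    rw [hA]
    refine ⟨n, fun i => i + 1, ⟨by exact_mod_cast hn0, fun i => Nat.succ_pos _, fun x => ?_⟩, rfl⟩
    refine le_trans ?_ hn1
    have : #{i ∈ range n | i + 1 = x} ≤ 1 := by
      rw [card_le_one]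
      intro i hi j hj
      rw [mem_filter] at hi hj
      omega
    exact_mod_cast this
  have hbd : BddBelow A := by
    refine ⟨0, ?_⟩
    rintro x hx
    rw [hA] at hx
    obtain ⟨n, s, -, rfl⟩ := hx
    exact div_nonneg (cnt_nonneg _ _ _ _) (by positivity)
  obtain ⟨x, hx, hx2⟩ := exists_lt_of_csInf_lt hne (show sInf A < sInf A + ε / 2 by linarith)
  have hxA := hx
  rw [hA] at hx
  obtain ⟨n, s, hs, hxe⟩ := hx
  have hn : 0 < n := hs.1
  have hn0 : (0 : ℝ) < n := by exact_mod_cast hn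
  refine ⟨n, s, hn, hs.2.1, ?_⟩
  intro a b ha hb
  have h1 := two_spread η n a b s ha hb hs
  have h2 := two_cnt R hR hsc n a b s ha hb
  have h3 : cnt R (n + n) (two n a b s) (two n a b s) / ((n + n : ℕ) : ℝ) ^ 2 ∈ A := by
    rw [hA]
    exact ⟨_, _, h1, rfl⟩
  have h4' := csInf_le hbd h3
  have h5 : 1 / 3 - ε / 2 ≤ sInf A := by
    refine le_csInf hne ?_
    rintro y hy
    rw [hA] at hy
    obtain ⟨m, t, ht, rfl⟩ := hy
    have hm0 : (0 : ℝ) < m := by exact_mod_cast ht.1
    have h6 := low_bound R Z hR hZ k hk h4 η m t ht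
    rw [hη1] at h6
    rw [le_div_iff₀ (by positivity)]
    exact h6
  have h6 : cnt R n s s = x * (n : ℝ) ^ 2 := by
    rw [hxe]
    field_simp
  rw [h2, h6] at h4'
  push_cast at h4'
  rw [le_div_iff₀ (by positivity)] at h4'
  have hn2 : (0 : ℝ) < (n : ℝ) ^ 2 := by positivity
  obtain ⟨c, hc⟩ : ∃ c, c = cnt R n (fun i => s i * a) (fun j => s j * b) := ⟨_, rfl⟩
  rw [← hc] at h4' ⊢
  have h7 : (2 * sInf A - x) * (n : ℝ) ^ 2 ≤ c := by nlinarith
  refine le_trans (mul_le_mul_of_nonneg_right ?_ hn2.le) h7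
  linarith

end Pool.Agent.MM
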