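import Mathlib

/-!
# Project MM (MP_bf63dc_nt): bad quadruples of a sequence with repetitions

`f 0, ..., f (n - 1)` is a sequence which takes every value at most `η n` times. If in every product `F 0 × F 1 × F 2 × F 3` of sets of at least `L`
of its values the proportion of the bad quadruples is at most `c`, then the proportion of the bad quadruples of terms of the sequence is at most
`c + 4 L (η + 1/n)`. Proof: the multiplicity `m x` of a value is the sum over `t < n` of the indicator function of `t < m x`.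
-/

set_option autoImplicit false

namespace Pool.Agent.MM

open Finset

variable {α : Type}

open Classical in
/-- the multiplicity -/
noncomputable def mu (n : ℕ) (f : ℕ → α) (x : α) : ℕ := #{i ∈ range n | f i = x}

open Classical in
/-- the layer `t`: the values with multiplicity more than `t` -/
noncomputable def lay (n : ℕ) (f : ℕ → α) (t : ℕ) : Finset α := {x ∈ (range n).image f | t < mu n f x}

theorem mu_le (n : ℕ) (f : ℕ → α) (x : α) : mu n f x ≤ n := by
  classical
  unfold mu
  refine (card_filter_le _ _).trans ?_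
  rw [card_range]

theorem mu_pos (n : ℕ) (f : ℕ → α) (hn : 0 < n) : 1 ≤ mu n f (f 0) := by
  classical
  unfold mu
  exact card_pos.2 ⟨0, mem_filter.2 ⟨mem_range.2 hn, rfl⟩⟩

theorem mu_inj (n : ℕ) (f : ℕ → α) (hf : Function.Injective f) (x : α) : mu n f x ≤ 1 := by
  classical
  unfold mu
  rw [card_le_one]
  intro i hi j hj
  rw [mem_filter] at hi hj
  exact hf (hi.2.trans hj.2.symm)

theorem mu_comp {β : Type} (η : ℝ) (n : ℕ) (f : ℕ → α) (g : α → β) (hg : Function.Injective g) (hη : 0 ≤ η)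
    (h : ∀ x, (mu n f x : ℝ) ≤ η * n) (x : β) : (mu n (fun i => g (f i)) x : ℝ) ≤ η * n := by
  classical
  by_cases hx : ∃ y, g y = x
  · obtain ⟨y, rfl⟩ := hx
    refine le_trans ?_ (h y)
    unfold mu
    refine Nat.cast_le.2 (card_le_card fun i hi => ?_)
    rw [mem_filter] at hi ⊢
    exact ⟨hi.1, hg hi.2⟩
  · have h1 : mu n (fun i => g (f i)) x = 0 := by
      unfold mu
      rw [card_eq_zero, filter_eq_empty_iff]
      exact fun i _ h2 => hx ⟨_, h2⟩
    rw [h1, Nat.cast_zero]
    positivity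

open Classical in
theorem eq_le (η : ℝ) (n : ℕ) (s t : ℕ → α) (ht : ∀ x, (mu n t x : ℝ) ≤ η * n) :
    ∑ i ∈ range n, ∑ j ∈ range n, (if s i = t j then (1 : ℝ) else 0) ≤ η * (n : ℝ) ^ 2 := by
  have h6 : ∀ i ∈ range n, ∑ j ∈ range n, (if s i = t j then (1 : ℝ) else 0) ≤ η * n := by
    intro i _
    have h9 := ht (s i)
    unfold mu at h9
    rw [card_filter] at h9
    push_cast at h9
    refine le_trans (le_of_eq (sum_congr rfl fun j _ => ?_)) h9
    by_cases hj : s i = t j
    · rw [if_pos hj, if_pos hj.symm]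
    · rw [if_neg hj, if_neg fun h => hj h.symm]
  calc _ ≤ ∑ _i ∈ range n, η * n := sum_le_sum h6
    _ = η * (n : ℝ) ^ 2 := by rw [sum_const, nsmul_eq_mul, card_range]; ring

theorem lay_sum (n : ℕ) (f : ℕ → α) : ∑ t ∈ range n, #(lay n f t) = n := by
  classical
  have h1 : ∀ t ∈ range n, #(lay n f t) = ∑ x ∈ (range n).image f, if t < mu n f x then 1 else 0 := by
    intro t _
    unfold lay
    rw [card_filter]
  rw [sum_congr rfl h1, sum_comm]
  have h2 : ∀ x ∈ (range n).image f, (∑ t ∈ range n, if t < mu n f x then 1 else 0) = mu n f x := by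
    intro x _
    rw [← card_filter]
    have h3 : {t ∈ range n | t < mu n f x} = range (mu n f x) := by
      ext t
      rw [mem_filter, mem_range, mem_range]
      have := mu_le n f x
      constructor
      · exact fun h => h.2
      · exact fun h => ⟨lt_of_lt_of_le h this, h⟩
    rw [h3, card_range]
  rw [sum_congr rfl h2]
  have h4 := card_eq_sum_card_image f (range n)
  rw [card_range] at h4
  refine Eq.trans ?_ h4.symm
  refine sum_congr rfl fun x _ => ?_
  unfold mu
  rfl

theorem bad_eq (n : ℕ) (f : ℕ → α) (B : (Fin 4 → α) → Prop) [DecidablePred B] :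
    #{t ∈ Fintype.piFinset (fun _ : Fin 4 => range n) | B (f ∘ t)} =
      ∑ τ ∈ Fintype.piFinset (fun _ : Fin 4 => range n), #{g ∈ Fintype.piFinset (fun j => lay n f (τ j)) | B g} := by
  classical
  have h1 : #{t ∈ Fintype.piFinset (fun _ : Fin 4 => range n) | B (f ∘ t)} =
      ∑ g ∈ {g ∈ Fintype.piFinset (fun _ : Fin 4 => (range n).image f) | B g}, ∏ j, mu n f (g j) := by
    rw [card_eq_sum_card_fiberwise (f := fun t : Fin 4 → ℕ => f ∘ t)
      (t := {g ∈ Fintype.piFinset (fun _ : Fin 4 => (range n).image f) | B g}) (by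
        intro t ht
        rw [mem_coe, mem_filter, Fintype.mem_piFinset] at ht
        rw [mem_coe, mem_filter, Fintype.mem_piFinset]
        exact ⟨fun j => mem_image_of_mem f (ht.1 j), ht.2⟩)]
    refine sum_congr rfl fun g hg => ?_
    rw [mem_filter, Fintype.mem_piFinset] at hg
    unfold mu
    rw [← Fintype.card_piFinset]
    congr 1
    ext t
    rw [mem_filter, mem_filter, Fintype.mem_piFinset, Fintype.mem_piFinset]
    constructor
    · rintro ⟨⟨h2, -⟩, h3⟩ j
      rw [mem_filter]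
      exact ⟨h2 j, congrFun h3 j⟩
    · intro h2
      have h3 : f ∘ t = g := funext fun j => (mem_filter.1 (h2 j)).2
      exact ⟨⟨fun j => (mem_filter.1 (h2 j)).1, h3 ▸ hg.2⟩, h3⟩
  have h2 : ∀ τ ∈ Fintype.piFinset (fun _ : Fin 4 => range n), #{g ∈ Fintype.piFinset (fun j => lay n f (τ j)) | B g} =
      ∑ g ∈ {g ∈ Fintype.piFinset (fun _ : Fin 4 => (range n).image f) | B g}, if ∀ j, τ j < mu n f (g j) then 1 else 0 := by
    intro τ _
    rw [← card_filter]
    congr 1
    ext g
    rw [mem_filter, mem_filter, mem_filter, Fintype.mem_piFinset, Fintype.mem_piFinset]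
    unfold lay
    constructor
    · rintro ⟨h3, h4⟩
      exact ⟨⟨fun j => (mem_filter.1 (h3 j)).1, h4⟩, fun j => (mem_filter.1 (h3 j)).2⟩
    · rintro ⟨⟨h3, h4⟩, h5⟩
      exact ⟨fun j => mem_filter.2 ⟨h3 j, h5 j⟩, h4⟩
  rw [h1, sum_congr rfl h2, sum_comm]
  refine sum_congr rfl fun g _ => ?_
  rw [← card_filter]
  have h3 : {τ ∈ Fintype.piFinset (fun _ : Fin 4 => range n) | ∀ j, τ j < mu n f (g j)} =
      Fintype.piFinset (fun j : Fin 4 => range (mu n f (g j))) := by
    ext τ
    rw [mem_filter, Fintype.mem_piFinset, Fintype.mem_piFinset]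
    constructor
    · rintro ⟨-, h⟩ j
      exact mem_range.2 (h j)
    · intro h
      exact ⟨fun j => mem_range.2 (lt_of_lt_of_le (mem_range.1 (h j)) (mu_le _ _ _)), fun j => mem_range.1 (h j)⟩
  rw [h3, Fintype.card_piFinset]
  simp only [card_range]

/-- **bad quadruples of a sequence** -/
theorem bad_le (n : ℕ) (f : ℕ → α) (B : (Fin 4 → α) → Prop) [DecidablePred B] (L : ℕ) (c η : ℝ) (hc : 0 ≤ c)
    (hη : ∀ x, (mu n f x : ℝ) ≤ η * n) (hη1 : 1 ≤ η * n)
    (h : ∀ F : Fin 4 → Finset α, (∀ i, L ≤ #(F i)) → (∀ i, ∀ x ∈ F i, ∃ j < n, f j = x) →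
      (#{g ∈ Fintype.piFinset F | B g} : ℝ) ≤ c * ∏ i, (#(F i) : ℝ)) :
    (#{t ∈ Fintype.piFinset (fun _ : Fin 4 => range n) | B (f ∘ t)} : ℝ) ≤ (c + 8 * η * L) * (n : ℝ) ^ 4 := by
  classical
  obtain ⟨w, hw⟩ : ∃ w : ℕ → ℝ, w = fun t => (#(lay n f t) : ℝ) := ⟨_, rfl⟩
  obtain ⟨w', hw'⟩ : ∃ w' : ℕ → ℝ, w' = fun t => if #(lay n f t) < L then (#(lay n f t) : ℝ) else 0 := ⟨_, rfl⟩
  have hw0 : ∀ t, 0 ≤ w t := fun t => by rw [hw]; positivity
  have hw'0 : ∀ t, 0 ≤ w' t := fun t => by rw [hw']; dsimp only; split_ifs <;> positivity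
  have hWs : ∑ t ∈ range n, w t = n := by
    rw [hw]
    dsimp only
    have := lay_sum n f
    exact_mod_cast this
  have hW's : ∑ t ∈ range n, w' t ≤ 2 * η * n * L := by
    have h1 : ∀ t ∈ range n, w' t ≤ if (t : ℝ) < η * n then (L : ℝ) else 0 := by
      intro t _
      rw [hw']
      dsimp only
      split_ifs with h1 h2 h2
      · exact_mod_cast h1.le
      · have h3 : lay n f t = ∅ := by
          unfold lay
          rw [filter_eq_empty_iff]
          intro x _ h4
          apply h2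
          have h5 := hη x
          have h6 : (t : ℝ) < mu n f x := by exact_mod_cast h4
          linarith
        rw [h3]
        simp
      · positivity
      · exact le_rfl
    refine (sum_le_sum h1).trans ?_
    rw [← sum_filter, sum_const, nsmul_eq_mul]
    refine mul_le_mul_of_nonneg_right ?_ (Nat.cast_nonneg _)
    have h2 : {t ∈ range n | ((t : ℕ) : ℝ) < η * n} ⊆ range (⌊η * n⌋₊ + 1) := by
      intro t ht
      rw [mem_filter] at ht
      rw [mem_range]
      exact Nat.lt_succ_of_le (Nat.le_floor ht.2.le)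
    have h3 := card_le_card h2
    rw [card_range] at h3
    have h4 : (#{t ∈ range n | ((t : ℕ) : ℝ) < η * n} : ℝ) ≤ ⌊η * n⌋₊ + 1 := by exact_mod_cast h3
    have h5 : (⌊η * n⌋₊ : ℝ) ≤ η * n := Nat.floor_le (by linarith)
    linarith
  rw [bad_eq]
  push_cast
  have key : ∀ τ ∈ Fintype.piFinset (fun _ : Fin 4 => range n), (#{g ∈ Fintype.piFinset (fun j => lay n f (τ j)) | B g} : ℝ) ≤
      c * ∏ j, w (τ j) + ∑ j₀ : Fin 4, ∏ j, (if j = j₀ then w' (τ j) else w (τ j)) := by
    intro τ _
    have hpr : 0 ≤ c * ∏ j, w (τ j) := mul_nonneg hc (prod_nonneg fun j _ => hw0 _)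
    have hpr2 : ∀ j₀ : Fin 4, 0 ≤ ∏ j, (if j = j₀ then w' (τ j) else w (τ j)) := by
      intro j₀
      refine prod_nonneg fun j _ => ?_
      split_ifs
      · exact hw'0 _
      · exact hw0 _
    by_cases hL : ∀ j, L ≤ #(lay n f (τ j))
    · have h1 := h (fun j => lay n f (τ j)) hL (by
        intro j x hx
        unfold lay at hx
        obtain ⟨i, hi, hi2⟩ := mem_image.1 (mem_filter.1 hx).1
        exact ⟨i, mem_range.1 hi, hi2⟩)
      have h2 : 0 ≤ ∑ j₀ : Fin 4, ∏ j, (if j = j₀ then w' (τ j) else w (τ j)) := sum_nonneg fun j₀ _ => hpr2 j₀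
      have h3 : c * ∏ j, (#(lay n f (τ j)) : ℝ) = c * ∏ j, w (τ j) := by rw [hw]
      linarith
    · push Not at hL
      obtain ⟨j₀, hj₀⟩ := hL
      have h1 : (#{g ∈ Fintype.piFinset (fun j => lay n f (τ j)) | B g} : ℝ) ≤ ∏ j, w (τ j) := by
        have h2 := card_filter_le (Fintype.piFinset (fun j => lay n f (τ j))) B
        rw [Fintype.card_piFinset] at h2
        rw [hw]
        dsimp only
        exact_mod_cast h2
      have h2 : ∏ j, w (τ j) = ∏ j, (if j = j₀ then w' (τ j) else w (τ j)) := by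
        refine prod_congr rfl fun j _ => ?_
        split_ifs with hj
        · rw [hj, hw, hw']
          dsimp only
          rw [if_pos hj₀]
        · rfl
      have h3 : ∏ j, (if j = j₀ then w' (τ j) else w (τ j)) ≤ ∑ j₀ : Fin 4, ∏ j, (if j = j₀ then w' (τ j) else w (τ j)) :=
        single_le_sum (f := fun j₀ : Fin 4 => ∏ j, (if j = j₀ then w' (τ j) else w (τ j))) (fun j₀ _ => hpr2 j₀) (mem_univ j₀)
      linarith
  refine (sum_le_sum key).trans ?_
  rw [sum_add_distrib, ← mul_sum, sum_comm]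
  have e1 : ∑ τ ∈ Fintype.piFinset (fun _ : Fin 4 => range n), ∏ j, w (τ j) = (n : ℝ) ^ 4 := by
    have h1 := (prod_univ_sum (fun _ : Fin 4 => range n) (fun (_ : Fin 4) t => w t)).symm
    rw [h1]
    rw [prod_const, hWs, card_univ, Fintype.card_fin]
  have e2 : ∀ j₀ : Fin 4, ∑ τ ∈ Fintype.piFinset (fun _ : Fin 4 => range n), ∏ j, (if j = j₀ then w' (τ j) else w (τ j)) =
      (∑ t ∈ range n, w' t) * (n : ℝ) ^ 3 := by
    intro j₀
    have h1 := (prod_univ_sum (fun _ : Fin 4 => range n) (fun (j : Fin 4) t => if j = j₀ then w' t else w t)).symm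
    rw [h1]
    have h2 : ∀ j : Fin 4, ∑ t ∈ range n, (if j = j₀ then w' t else w t) = if j = j₀ then (∑ t ∈ range n, w' t) else (n : ℝ) := by
      intro j
      split_ifs
      · rfl
      · exact hWs
    simp only [h2]
    fin_cases j₀ <;> simp [Fin.prod_univ_four] <;> ring
  rw [e1, sum_congr rfl fun j₀ _ => e2 j₀, sum_const, card_univ, Fintype.card_fin, nsmul_eq_mul]
  have hn3 : (0 : ℝ) ≤ (n : ℝ) ^ 3 := by positivity
  have h1 := mul_le_mul_of_nonneg_right hW's hn3
  push_cast
  nlinarith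

end Pool.Agent.MM
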