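import Pool.Agent.helper72.MM.X0

/-!
# Project MM (MP_bf63dc_nt): a third of the iterates of every case, combinatorial part
-/

set_option autoImplicit false

namespace Pool.Agent.MM

open Finset Pool.Agent.AT

/-- a third of the pairs of a sequence of forms all of whose quadruples are admissible -/
theorem low_adm (hQ : Qk 4) (ε : ℝ) (hε : 0 < ε) : ∃ η : ℝ, 0 < η ∧ η ≤ ε ∧ ∀ (n : ℕ) (f : ℕ → ℕ × ℤ), 0 < n →
    (∀ i < n, 0 < (f i).1) → (∀ t : Fin 4 → ℕ, (∀ j, t j < n) → Adm (f ∘ t)) → (∀ x, (mu n f x : ℝ) ≤ η * n) →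
    (1 / 3 - ε) * (n : ℝ) ^ 2 ≤ cn PP n f f := by
  classical
  obtain ⟨C, δ, hC, hδ, -, hQ⟩ := hQ
  -- the number `L`
  obtain ⟨L, hL1, hL⟩ : ∃ L : ℕ, 1 ≤ L ∧ C * (L : ℝ) ^ (-δ) ≤ ε / 3 := by
    have h1 : Filter.Tendsto (fun L : ℕ => C * (L : ℝ) ^ (-δ)) Filter.atTop (nhds (C * 0)) :=
      ((tendsto_rpow_neg_atTop hδ).comp tendsto_natCast_atTop_atTop).const_mul C
    rw [mul_zero] at h1
    obtain ⟨L, h2, h3⟩ := ((h1.eventually (gt_mem_nhds (show (0 : ℝ) < ε / 3 by positivity))).and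
      (Filter.eventually_ge_atTop 1)).exists
    exact ⟨L, h3, h2.le⟩
  have hL0 : (0 : ℝ) < L := by exact_mod_cast hL1
  have hη1 : ε / (48 * L) ≤ ε / 48 := by
    have h1 : (1 : ℝ) ≤ L := by exact_mod_cast hL1
    exact div_le_div_of_nonneg_left hε.le (by norm_num) (by nlinarith)
  refine ⟨ε / (48 * L), by positivity, by linarith, ?_⟩
  intro n f hn hpos hAdm hmu
  obtain ⟨η, hη⟩ : ∃ η : ℝ, η = ε / (48 * L) := ⟨_, rfl⟩
  rw [← hη] at hmu hη1
  have hηL : 8 * η * L = ε / 6 := by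
    rw [hη]
    field_simp
    norm_num
  have hη0 : 0 < η := by rw [hη]; positivity
  have h1 : 1 ≤ η * n := by
    refine le_trans ?_ (hmu (f 0))
    exact_mod_cast mu_pos n f hn
  have hn0 : (0 : ℝ) < n := by exact_mod_cast hn
  obtain ⟨R, hR⟩ : ∃ R : ℕ → ℕ → Prop, R = fun i j => i ≠ j ∧ ¬ PP (f i) (f j) := ⟨_, rfl⟩
  have hMM := MM (range n) R (fun x y h => by
    rw [hR] at h ⊢
    exact ⟨h.1.symm, fun hp => h.2 (PP_symm _ _ hp)⟩) (fun x h => by
    rw [hR] at h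
    exact h.1 rfl)
  rw [card_range] at hMM
  have hbad := bad_le n f (fun g : Fin 4 → ℕ × ℤ => Adm g ∧ ¬ Many g) L (C * (L : ℝ) ^ (-δ)) η (by positivity) hmu h1 (by
    intro F hF hFi
    have h2 := hQ F L hL1 hF (by
      intro i x hx
      obtain ⟨j, hj, rfl⟩ := hFi i x hx
      exact hpos j hj)
    rw [mul_right_comm] at h2
    exact h2)
  have hN4 : (#{t ∈ range n ×ˢ range n ×ˢ range n ×ˢ range n | R t.1 t.2.1 ∧ R t.1 t.2.2.1 ∧ R t.1 t.2.2.2 ∧ R t.2.1 t.2.2.1 ∧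
      R t.2.1 t.2.2.2 ∧ R t.2.2.1 t.2.2.2} : ℝ) ≤ (ε / 3 + ε / 6) * (n : ℝ) ^ 4 := by
    have h2 : #{t ∈ range n ×ˢ range n ×ˢ range n ×ˢ range n | R t.1 t.2.1 ∧ R t.1 t.2.2.1 ∧ R t.1 t.2.2.2 ∧ R t.2.1 t.2.2.1 ∧
      R t.2.1 t.2.2.2 ∧ R t.2.2.1 t.2.2.2} ≤
        #{t ∈ Fintype.piFinset (fun _ : Fin 4 => range n) | Adm (f ∘ t) ∧ ¬ Many (f ∘ t)} := by
      refine card_le_card_of_injOn (fun t => ![t.1, t.2.1, t.2.2.1, t.2.2.2]) ?_ ?_
      · intro t ht
        have ht' := mem_filter.mp (mem_coe.mp ht)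
        obtain ⟨h1, r1, r2, r3, r4, r5, r6⟩ := ht'
        rw [mem_product, mem_product, mem_product] at h1
        obtain ⟨a1, a2, a3, a4⟩ := h1
        have hmem : ∀ i : Fin 4, (![t.1, t.2.1, t.2.2.1, t.2.2.2] : Fin 4 → ℕ) i ∈ range n := by
          intro i
          fin_cases i
          · exact a1
          · exact a2
          · exact a3
          · exact a4
        apply mem_coe.mpr
        rw [mem_filter, Fintype.mem_piFinset]
        refine ⟨hmem, hAdm _ fun j => mem_range.1 (hmem j), ?_⟩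
        intro hM
        obtain ⟨i, j, hij, hp⟩ := QP_pair _ hM
        have hsym : ∀ x y : ℕ, R x y → ¬ PP (f x) (f y) ∧ ¬ PP (f y) (f x) := by
          intro x y h
          rw [hR] at h
          exact ⟨h.2, fun h' => h.2 (PP_symm _ _ h')⟩
        have hp' : PP (f ((![t.1, t.2.1, t.2.2.1, t.2.2.2] : Fin 4 → ℕ) i)) (f ((![t.1, t.2.1, t.2.2.1, t.2.2.2] : Fin 4 → ℕ) j)) := hp
        fin_cases i <;> fin_cases j
        · exact hij rfl
        · exact (hsym _ _ r1).1 hp'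
        · exact (hsym _ _ r2).1 hp'
        · exact (hsym _ _ r3).1 hp'
        · exact (hsym _ _ r1).2 hp'
        · exact hij rfl
        · exact (hsym _ _ r4).1 hp'
        · exact (hsym _ _ r5).1 hp'
        · exact (hsym _ _ r2).2 hp'
        · exact (hsym _ _ r4).2 hp'
        · exact hij rfl
        · exact (hsym _ _ r6).1 hp'
        · exact (hsym _ _ r3).2 hp'
        · exact (hsym _ _ r5).2 hp'
        · exact (hsym _ _ r6).2 hp'
        · exact hij rfl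
      · intro t _ t' _ h
        have h0 := congrFun h 0
        have h1 := congrFun h 1
        have h2 := congrFun h 2
        have h3 := congrFun h 3
        simp only [Matrix.cons_val_zero, Matrix.cons_val_one, Matrix.cons_val] at h0 h1 h2 h3
        exact Prod.ext h0 (Prod.ext h1 (Prod.ext h2 h3))
    refine le_trans (Nat.cast_le.2 h2) (hbad.trans ?_)
    refine mul_le_mul_of_nonneg_right ?_ (by positivity)
    linarith
  obtain ⟨N4, hN4e⟩ : ∃ N4 : ℝ, N4 = #{t ∈ range n ×ˢ range n ×ˢ range n ×ˢ range n | R t.1 t.2.1 ∧ R t.1 t.2.2.1 ∧ R t.1 t.2.2.2 ∧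
      R t.2.1 t.2.2.1 ∧ R t.2.1 t.2.2.2 ∧ R t.2.2.1 t.2.2.2} := ⟨_, rfl⟩
  rw [← hN4e] at hN4
  obtain ⟨N2, hN2⟩ : ∃ N2 : ℝ, N2 = #{p ∈ range n ×ˢ range n | R p.1 p.2} := ⟨_, rfl⟩
  have hMM' : (n : ℝ) ^ 2 * N2 ≤ 2 / 3 * (n : ℝ) ^ 4 + 3 / 2 * N4 := by
    rw [hN2, hN4e]
    exact hMM
  have hN2' : N2 ≤ (2 / 3 + 3 / 4 * ε) * (n : ℝ) ^ 2 := by
    have h3 : (n : ℝ) ^ 2 * N2 ≤ (n : ℝ) ^ 2 * ((2 / 3 + 3 / 4 * ε) * (n : ℝ) ^ 2) := by
      calc (n : ℝ) ^ 2 * N2 ≤ 2 / 3 * (n : ℝ) ^ 4 + 3 / 2 * ((ε / 3 + ε / 6) * (n : ℝ) ^ 4) := by linarith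
        _ = _ := by ring
    exact le_of_mul_le_mul_left h3 (by positivity)
  -- all pairs
  have hall : (n : ℝ) ^ 2 ≤ cn PP n f f + N2 + n := by
    rw [cn_eq, hN2]
    have h3 : range n ×ˢ range n ⊆ ({p ∈ range n ×ˢ range n | PP (f p.1) (f p.2)} ∪ {p ∈ range n ×ˢ range n | R p.1 p.2}) ∪
        (range n).diag := by
      intro p hp
      rw [mem_union, mem_union, mem_filter, mem_filter, mem_diag]
      by_cases h4 : p.1 = p.2
      · exact Or.inr ⟨(mem_product.1 hp).1, h4⟩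
      · by_cases h5 : PP (f p.1) (f p.2)
        · exact Or.inl (Or.inl ⟨hp, h5⟩)
        · refine Or.inl (Or.inr ⟨hp, ?_⟩)
          rw [hR]
          exact ⟨h4, h5⟩
    have h4 := (card_le_card h3).trans ((card_union_le _ _).trans (Nat.add_le_add_right (card_union_le _ _) _))
    rw [card_product, card_range, diag_card, card_range] at h4
    have h5 : ((n * n : ℕ) : ℝ) ≤ ((#{p ∈ range n ×ˢ range n | PP (f p.1) (f p.2)} + #{p ∈ range n ×ˢ range n | R p.1 p.2} + n : ℕ) : ℝ) := by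
      exact_mod_cast h4
    push_cast at h5
    rw [sq]
    exact h5
  have hn1 : (n : ℝ) ≤ ε / 48 * (n : ℝ) ^ 2 := by
    calc (n : ℝ) = 1 * n := by ring
      _ ≤ (η * n) * n := mul_le_mul_of_nonneg_right h1 hn0.le
      _ = η * (n : ℝ) ^ 2 := by ring
      _ ≤ _ := mul_le_mul_of_nonneg_right hη1 (by positivity)
  have hn2 : (0 : ℝ) < (n : ℝ) ^ 2 := by positivity
  nlinarith

/-- the pairs of different integers with `S` for the distance -/
def RS (S : ℕ → Prop) (u v : ℕ) : Prop := u ≠ v ∧ S (u - v + (v - u))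

theorem RS_symm (S : ℕ → Prop) (u v : ℕ) (h : RS S u v) : RS S v u := by
  refine ⟨h.1.symm, ?_⟩
  rw [add_comm]
  exact h.2

theorem RS_add (S : ℕ → Prop) (u v t : ℕ) : RS S (u + t) (v + t) ↔ RS S u v := by
  unfold RS
  rw [Nat.add_sub_add_right, Nat.add_sub_add_right, Ne, Nat.add_right_cancel_iff]

open Classical in
/-- **lower Banach density**: if at least a third of the distances of the terms of every spread sequence are in `S`, then every long interval contains at least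
a third of elements of `S` -/
theorem dens (S : ℕ → Prop) (η ε : ℝ) (hη : 0 < η) (hε : 0 < ε)
    (h : ∀ (n : ℕ) (x : ℕ → ℕ), 0 < n → (∀ v, (mu n x v : ℝ) ≤ η * n) → (1 / 3 - ε) * (n : ℝ) ^ 2 ≤ cn (RS S) n x x) :
    ∃ M₀ : ℕ, ∀ M : ℕ, M₀ ≤ M → ∀ u : ℕ, (1 / 3 - 4 * ε) * M ≤ #{m ∈ Ioc u (u + M) | S m} := by
  obtain ⟨A, hA⟩ : ∃ A : Set ℝ, A = {z | ∃ (n : ℕ) (x : ℕ → ℕ), (0 < n ∧ ∀ v, (mu n x v : ℝ) ≤ η * n) ∧
    z = cn (RS S) n x x / (n : ℝ) ^ 2} := ⟨_, rfl⟩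
  have hne : A.Nonempty := by
    obtain ⟨n, hn⟩ := exists_nat_gt (1 / η)
    have hn0 : (0 : ℝ) < n := lt_trans (by positivity) hn
    have hn1 : 1 ≤ η * n := by
      rw [div_lt_iff₀ hη] at hn
      linarith
    refine ⟨cn (RS S) n (fun i => i) (fun i => i) / (n : ℝ) ^ 2, ?_⟩
    rw [hA]
    refine ⟨n, fun i => i, ⟨by exact_mod_cast hn0, fun v => le_trans ?_ hn1⟩, rfl⟩
    exact_mod_cast mu_inj n (fun i : ℕ => i) (fun _ _ h => h) v
  have hbd : BddBelow A := by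
    refine ⟨0, ?_⟩
    rintro z hz
    rw [hA] at hz
    obtain ⟨n, x, -, rfl⟩ := hz
    exact div_nonneg (cn_nonneg _ _ _ _) (by positivity)
  obtain ⟨z, hz, hz2⟩ := exists_lt_of_csInf_lt hne (show sInf A < sInf A + ε by linarith)
  rw [hA] at hz
  obtain ⟨n, x, ⟨hn, hx⟩, hze⟩ := hz
  have hn0 : (0 : ℝ) < n := by exact_mod_cast hn
  have hn2 : (0 : ℝ) < (n : ℝ) ^ 2 := by positivity
  have hd : 1 / 3 - ε ≤ sInf A := by
    refine le_csInf hne ?_
    rintro y hy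
    rw [hA] at hy
    obtain ⟨m, t, ht, rfl⟩ := hy
    have hm0 : (0 : ℝ) < m := by exact_mod_cast ht.1
    rw [le_div_iff₀ (by positivity)]
    exact h m t ht.1 ht.2
  have hxx : cn (RS S) n x x = z * (n : ℝ) ^ 2 := by
    rw [hze]
    field_simp
  -- the cross terms
  have hcross : ∀ t : ℕ, (1 / 3 - 2 * ε) * (n : ℝ) ^ 2 ≤ cn (RS S) n x (fun i => x i + t) := by
    intro t
    have hmu : ∀ v, (mu n (fun i => x i + t) v : ℝ) ≤ η * n :=
      mu_comp η n x (fun u => u + t) (fun u v h => Nat.add_right_cancel h) hη.le hx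
    have h1 : cn (RS S) (n + n) (jo n x fun i => x i + t) (jo n x fun i => x i + t) / ((n + n : ℕ) : ℝ) ^ 2 ∈ A := by
      rw [hA]
      refine ⟨n + n, _, ⟨by omega, fun v => ?_⟩, rfl⟩
      rw [jo_mu]
      have h2 := hx v
      have h3 := hmu v
      push_cast
      linarith
    have h2 := csInf_le hbd h1
    rw [jo_cn _ (RS_symm S)] at h2
    have h3 : cn (RS S) n (fun i => x i + t) (fun i => x i + t) = cn (RS S) n x x := by
      unfold cn
      simp only [RS_add]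
    rw [h3, hxx] at h2
    push_cast at h2
    rw [le_div_iff₀ (by positivity)] at h2
    nlinarith
  -- the interval
  obtain ⟨X, hX⟩ : ∃ X : ℕ, ∀ i < n, x i ≤ X :=
    ⟨∑ i ∈ range n, x i, fun i hi => single_le_sum (f := x) (fun _ _ => Nat.zero_le _) (mem_range.2 hi)⟩
  obtain ⟨M₀, hM₀⟩ := exists_nat_ge (3 * X / ε)
  refine ⟨M₀, fun M hM u => ?_⟩
  have hM1 : 3 * (X : ℝ) ≤ ε * M := by
    have h1 : 3 * (X : ℝ) / ε ≤ M := hM₀.trans (by exact_mod_cast hM)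
    rw [div_le_iff₀ hε] at h1
    linarith
  obtain ⟨c, hc⟩ : ∃ c : ℕ, c = #{m ∈ Ioc u (u + M) | S m} := ⟨_, rfl⟩
  rw [← hc]
  -- `t` runs through `(u + X, u + M]`
  have key : ∀ i < n, ∀ j < n, (∑ t ∈ Ioc (u + X) (u + M), if RS S (x i) (x j + t) then (1 : ℝ) else 0) ≤ c + X := by
    intro i hi j hj
    have hi' := hX i hi
    have hj' := hX j hj
    have h1 : (∑ t ∈ Ioc (u + X) (u + M), if RS S (x i) (x j + t) then (1 : ℝ) else 0) =
        (#{t ∈ Ioc (u + X) (u + M) | RS S (x i) (x j + t)} : ℝ) := by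
      rw [card_filter]
      push_cast
      rfl
    rw [h1]
    have h2 : #{t ∈ Ioc (u + X) (u + M) | RS S (x i) (x j + t)} ≤ #({m ∈ Ioc u (u + M) | S m} ∪ Ioc (u + M) (u + M + X)) := by
      refine card_le_card_of_injOn (fun t => t + x j - x i) ?_ ?_
      · intro t ht
        rw [mem_coe, mem_filter, mem_Ioc] at ht
        obtain ⟨⟨h3, h4⟩, -, h5⟩ := ht
        rw [mem_coe, mem_union, mem_filter, mem_Ioc, mem_Ioc]
        have e : x i - (x j + t) + (x j + t - x i) = t + x j - x i := by omega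
        rw [e] at h5
        dsimp only
        by_cases h6 : t + x j - x i ≤ u + M
        · exact Or.inl ⟨⟨by omega, h6⟩, h5⟩
        · exact Or.inr ⟨by omega, by omega⟩
      · intro t ht t' ht' h
        rw [mem_coe, mem_filter, mem_Ioc] at ht ht'
        dsimp only at h
        omega
    have h3 := h2.trans (card_union_le _ _)
    rw [← hc, Nat.card_Ioc, Nat.add_sub_cancel_left] at h3
    exact_mod_cast h3
  have hsum : (#(Ioc (u + X) (u + M)) : ℝ) * ((1 / 3 - 2 * ε) * (n : ℝ) ^ 2) ≤ (n : ℝ) ^ 2 * (c + X) := by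
    calc (#(Ioc (u + X) (u + M)) : ℝ) * ((1 / 3 - 2 * ε) * (n : ℝ) ^ 2) =
        ∑ _t ∈ Ioc (u + X) (u + M), (1 / 3 - 2 * ε) * (n : ℝ) ^ 2 := by rw [sum_const, nsmul_eq_mul]
      _ ≤ ∑ t ∈ Ioc (u + X) (u + M), ∑ i ∈ range n, ∑ j ∈ range n, (if RS S (x i) (x j + t) then (1 : ℝ) else 0) := by
          refine sum_le_sum fun t _ => ?_
          have h1 := hcross t
          unfold cn at h1
          exact h1
      _ = ∑ i ∈ range n, ∑ j ∈ range n, ∑ t ∈ Ioc (u + X) (u + M), (if RS S (x i) (x j + t) then (1 : ℝ) else 0) := by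
          rw [sum_comm]
          exact sum_congr rfl fun i _ => sum_comm
      _ ≤ ∑ _i ∈ range n, ∑ _j ∈ range n, ((c : ℝ) + X) :=
          sum_le_sum fun i hi => sum_le_sum fun j hj => key i (mem_range.1 hi) j (mem_range.1 hj)
      _ = (n : ℝ) ^ 2 * (c + X) := by
          rw [sum_const, sum_const, card_range, nsmul_eq_mul, nsmul_eq_mul]
          ring
  by_cases hε3 : 1 / 3 - 2 * ε ≤ 0
  · have h1 : (0 : ℝ) ≤ M := Nat.cast_nonneg _
    have h2 : (0 : ℝ) ≤ c := Nat.cast_nonneg _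
    nlinarith
  · push Not at hε3
    have hcard : (M : ℝ) - X ≤ #(Ioc (u + X) (u + M)) := by
      rw [Nat.card_Ioc]
      have h1 : M ≤ (u + M - (u + X)) + X := by omega
      have h2 : (M : ℝ) ≤ ((u + M - (u + X) : ℕ) : ℝ) + X := by exact_mod_cast h1
      linarith
    have h1 : ((M : ℝ) - X) * (1 / 3 - 2 * ε) ≤ c + X := by
      have h2 : ((M : ℝ) - X) * ((1 / 3 - 2 * ε) * (n : ℝ) ^ 2) ≤ (n : ℝ) ^ 2 * (c + X) :=
        (mul_le_mul_of_nonneg_right hcard (by positivity)).trans hsum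
      have h3 : (n : ℝ) ^ 2 * (((M : ℝ) - X) * (1 / 3 - 2 * ε)) ≤ (n : ℝ) ^ 2 * (c + X) := by linarith
      exact le_of_mul_le_mul_left h3 hn2
    have hX0 : (0 : ℝ) ≤ X := Nat.cast_nonneg _
    nlinarith

end Pool.Agent.MM
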