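import Pool.Agent.helper72.MM.O0
import Pool.Agent.helper9.IT.ORB
import Pool.Agent.helper24.IT.PRI
import Pool.Agent.helper41.IT.EVT
import Pool.Agent.helper49.IT.ADO

/-!
# Project MM (MP_bf63dc_nt): a third of the iterates of every case of Q1, the forms of an orbit
-/

set_option autoImplicit false

namespace Pool.Agent.MM

open Finset Pool.Agent.AT Pool.Agent.IT

theorem mu_of {α β : Type} (η : ℝ) (n : ℕ) (x : ℕ → α) (f : ℕ → β) (hinj : ∀ i < n, ∀ j < n, f i = f j → x i = x j) (hη : 0 ≤ η)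
    (h : ∀ v, (mu n x v : ℝ) ≤ η * n) (v : β) : (mu n f v : ℝ) ≤ η * n := by
  classical
  by_cases hv : ∃ i < n, f i = v
  · obtain ⟨i, hi, rfl⟩ := hv
    refine le_trans ?_ (h (x i))
    unfold mu
    refine Nat.cast_le.2 (card_le_card fun j hj => ?_)
    rw [mem_filter] at hj ⊢
    exact ⟨hj.1, hinj j (mem_range.1 hj.1) i hi hj.2⟩
  · have h1 : mu n f v = 0 := by
      unfold mu
      rw [card_eq_zero, filter_eq_empty_iff]
      exact fun i hi h2 => hv ⟨i, mem_range.1 hi, h2⟩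
    rw [h1, Nat.cast_zero]
    positivity

/-- the forms of an orbit with exponents `x i`: all quadruples are admissible, and two forms which are prime simultaneously infinitely often give a true
iterate -/
theorem orbF (a b : ℕ) (c : ℤ) (hAd : Ad a b c) (n : ℕ) (x : ℕ → ℕ)
    (h3 : (3 : ℤ) ∣ a * b * c ∨ ¬ (3 : ℤ) ∣ (a : ℤ) - b ∨ ∃ r : ℤ, ∀ i < n, ¬ (3 : ℤ) ∣ (x i : ℤ) - r) :
    ∃ f : ℕ → ℕ × ℤ, (∀ i, 0 < (f i).1) ∧ (∀ t : Fin 4 → ℕ, (∀ j, t j < n) → Adm (f ∘ t)) ∧
      (∀ i < n, ∀ j < n, f i = f j → x i = x j) ∧ ∀ i < n, ∀ j < n, x i < x j → PP (f i) (f j) → It a b c (x j - x i) := by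
  classical
  obtain ⟨ha, hb, hc, hab, hac, hbc, hpar⟩ := hAd
  obtain ⟨X, hX⟩ : ∃ X : ℕ, ∀ i < n, x i ≤ X :=
    ⟨∑ i ∈ range n, x i, fun i hi => single_le_sum (f := x) (fun _ _ => Nat.zero_le _) (mem_range.2 hi)⟩
  obtain ⟨h, hh⟩ := ORB a b X c ha hb hab
  obtain ⟨f, hf⟩ : ∃ f : ℕ → ℕ × ℤ, f = fun i => (a ^ (X - x i) * b ^ (x i), h (x i)) := ⟨_, rfl⟩
  have hpos : ∀ i, 0 < (f i).1 := by
    intro i
    rw [hf]
    positivity
  -- different exponents give different forms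
  have hne : ∀ i < n, ∀ j < n, x i < x j → f i ≠ f j := by
    intro i hi j hj hij
    have h1 := EVT_np a b X c h ha hb hc hh (x i) (x j) hij (hX j hj)
    intro h0
    rw [hf] at h0
    have e1 := congrArg Prod.fst h0
    have e2 := congrArg Prod.snd h0
    simp only at e1 e2
    apply h1
    rw [e1, e2]
    ring
  have hAdm : ∀ t : Fin 4 → ℕ, (∀ j, t j < n) → Adm (f ∘ t) := by
    intro t ht
    have h1 := ADO a b X c (fun j => x (t j)) h ⟨ha, hb, hc, hab, hac, hbc, hpar⟩ hh (fun j => hX _ (ht j)) (by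
      rcases h3 with h3 | h3 | ⟨r, h3⟩
      · exact Or.inl h3
      · exact Or.inr (Or.inl h3)
      · exact Or.inr (Or.inr ⟨r, fun j => h3 _ (ht j)⟩))
    rw [hf]
    exact h1
  refine ⟨f, hpos, hAdm, ?_, ?_⟩
  · intro i hi j hj hij
    by_contra h1
    rcases lt_or_gt_of_ne h1 with h2 | h2
    · exact hne i hi j hj h2 hij
    · exact hne j hj i hi h2 hij.symm
  · intro i hi j hj hij hP
    have hA2 : Adm ![f j, f i] := by
      intro p hp
      obtain ⟨m, hm⟩ := hAdm ![j, i, i, i] (by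
        intro t
        fin_cases t
        · exact hj
        · exact hi
        · exact hi
        · exact hi) p hp
      refine ⟨m, fun t => ?_⟩
      fin_cases t
      · exact hm 0
      · exact hm 1
    have h1 := PRT (f j) (f i) (hpos j) (hpos i) (hne i hi j hj hij).symm hA2 (PP_symm _ _ hP)
    rw [hf] at h1
    exact PRI a b X c h (x i) (x j) ha hb hab hh hij (hX j hj) h1

/-- a third of the pairs of exponents -/
theorem orb_low (hQ : Qk 4) (ε : ℝ) (hε : 0 < ε) : ∃ η : ℝ, 0 < η ∧ η ≤ ε ∧ ∀ (a b : ℕ) (c : ℤ), Ad a b c →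
    ∀ (n : ℕ) (x : ℕ → ℕ), 0 < n → ((3 : ℤ) ∣ a * b * c ∨ ¬ (3 : ℤ) ∣ (a : ℤ) - b ∨ ∃ r : ℤ, ∀ i < n, ¬ (3 : ℤ) ∣ (x i : ℤ) - r) →
      (∀ v, (mu n x v : ℝ) ≤ η * n) → (1 / 3 - ε) * (n : ℝ) ^ 2 ≤ cn (RS (It a b c)) n x x := by
  classical
  obtain ⟨η, hη, hηε, hlow⟩ := low_adm hQ (ε / 2) (by linarith)
  refine ⟨η, hη, by linarith, ?_⟩
  intro a b c hAd n x hn h3 hx
  have hn0 : (0 : ℝ) < n := by exact_mod_cast hn
  obtain ⟨f, hpos, hAdm, hinj, hpair⟩ := orbF a b c hAd n x h3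
  have hmain := hlow n f hn (fun i _ => hpos i) hAdm (mu_of η n x f hinj hη.le hx)
  have hcn : cn PP n f f ≤ cn (RS (It a b c)) n x x + ∑ i ∈ range n, ∑ j ∈ range n, (if x i = x j then (1 : ℝ) else 0) := by
    unfold cn
    rw [← sum_add_distrib]
    refine sum_le_sum fun i hi => ?_
    rw [← sum_add_distrib]
    refine sum_le_sum fun j hj => ?_
    have hi' := mem_range.1 hi
    have hj' := mem_range.1 hj
    by_cases h1 : PP (f i) (f j)
    · rw [if_pos h1]
      rcases lt_trichotomy (x i) (x j) with h2 | h2 | h2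
      · have h3 : RS (It a b c) (x i) (x j) := by
          refine ⟨h2.ne, ?_⟩
          have h4 : x i - x j + (x j - x i) = x j - x i := by omega
          rw [h4]
          exact hpair i hi' j hj' h2 h1
        rw [if_pos h3]
        have h4 : (0 : ℝ) ≤ if x i = x j then (1 : ℝ) else 0 := by split_ifs <;> norm_num
        linarith
      · rw [if_pos h2]
        have h4 : (0 : ℝ) ≤ if RS (It a b c) (x i) (x j) then (1 : ℝ) else 0 := by split_ifs <;> norm_num
        linarith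
      · have h3 : RS (It a b c) (x i) (x j) := by
          refine ⟨h2.ne', ?_⟩
          have h4 : x i - x j + (x j - x i) = x i - x j := by omega
          rw [h4]
          exact hpair j hj' i hi' h2 (PP_symm _ _ h1)
        rw [if_pos h3]
        have h4 : (0 : ℝ) ≤ if x i = x j then (1 : ℝ) else 0 := by split_ifs <;> norm_num
        linarith
    · rw [if_neg h1]
      have h4 : (0 : ℝ) ≤ if x i = x j then (1 : ℝ) else 0 := by split_ifs <;> norm_num
      have h5 : (0 : ℝ) ≤ if RS (It a b c) (x i) (x j) then (1 : ℝ) else 0 := by split_ifs <;> norm_num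
      linarith
  have heq : ∑ i ∈ range n, ∑ j ∈ range n, (if x i = x j then (1 : ℝ) else 0) ≤ η * (n : ℝ) ^ 2 := by
    refine le_trans (le_of_eq ?_) (eq_le η n x x hx)
    refine sum_congr rfl fun i _ => sum_congr rfl fun j _ => ?_
    by_cases h1 : x i = x j
    · rw [if_pos h1, if_pos h1]
    · rw [if_neg h1, if_neg h1]
  have hn2 : (0 : ℝ) ≤ (n : ℝ) ^ 2 := by positivity
  have hη2 : η * (n : ℝ) ^ 2 ≤ ε / 2 * (n : ℝ) ^ 2 := mul_le_mul_of_nonneg_right hηε hn2
  have hsplit : (1 / 3 - ε) * (n : ℝ) ^ 2 = (1 / 3 - ε / 2) * (n : ℝ) ^ 2 - ε / 2 * (n : ℝ) ^ 2 := by ring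
  rw [hsplit]
  linarith

end Pool.Agent.MM
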