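import Pool.Agent.helper38.AT.Spec
import Pool.Agent.helper10.QT.SpecX
import Pool.Agent.helper53.AT.THP
import Pool.Agent.helper5.AT.QP
import Pool.Agent.helper71.AT.MM
import Pool.Agent.helper72.MM.L0

/-!
# Project MM (MP_bf63dc_nt): near every equation `b x - a y = c` a third is true

THEOREM. For every `ε > 0` there are linear forms `v_i = s_i x + h_i`, `i < n`, such that for ALL coprime `a, b ≥ 1` and ALL integers `c` with
`gcd(s_i c + b h_i, a) = gcd(s_i c - a h_i, b) = 1` for all `i`: for at least `(1/3 - ε) n ^ 2` pairs `(i, j)` the equation `b x - a y = c`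
has infinitely many integer solutions with `v_i(x)`, `v_j(y)` both prime.
-/

set_option autoImplicit false

namespace Pool.Agent.MM

open Finset Pool.Agent.AT

/-- both forms have prime values for infinitely many `n` -/
def PP (v w : ℕ × ℤ) : Prop := ∀ N : ℕ, ∃ n ≥ N, (ev v n).Prime ∧ (ev w n).Prime

theorem PP_symm (v w : ℕ × ℤ) (h : PP v w) : PP w v := by
  intro N
  obtain ⟨n, hn, h1, h2⟩ := h N
  exact ⟨n, hn, h2, h1⟩

/-- substitution of `g.1 n + g.2` for `n` -/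
def sb (g v : ℕ × ℤ) : ℕ × ℤ := (v.1 * g.1, v.1 * g.2 + v.2)

theorem PP_sb (g v w : ℕ × ℤ) (hg : 0 < g.1) (h : PP (sb g v) (sb g w)) : PP v w := by
  intro N
  obtain ⟨n, hn, h1, h2⟩ := h (N + g.2.natAbs)
  have hn0 : (N : ℤ) + |g.2| ≤ n := by
    rw [Int.abs_eq_natAbs]
    exact_mod_cast hn
  have hm : (N : ℤ) ≤ (g.1 : ℤ) * n + g.2 := by
    have e1 : (n : ℤ) ≤ (g.1 : ℤ) * n := by
      have h3 : (1 : ℤ) ≤ g.1 := by exact_mod_cast hg
      have h4 : (0 : ℤ) ≤ n := Int.natCast_nonneg _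
      nlinarith
    have e2 := neg_abs_le g.2
    linarith
  have hm0 : (0 : ℤ) ≤ (g.1 : ℤ) * n + g.2 := le_trans (Int.natCast_nonneg _) hm
  obtain ⟨m, hme⟩ := Int.eq_ofNat_of_zero_le hm0
  have key : ∀ u : ℕ × ℤ, ev u m = ev (sb g u) n := by
    intro u
    unfold ev sb
    dsimp only
    congr 1
    rw [← hme]
    push_cast
    ring
  refine ⟨m, ?_, ?_, ?_⟩
  · rw [hme] at hm
    exact_mod_cast hm
  · rw [key]
    exact h1
  · rw [key]
    exact h2

/-- the number of the pairs `(i, j)` with `R (s i) (t j)` -/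
noncomputable def cn {α : Type} (R : α → α → Prop) (n : ℕ) (s t : ℕ → α) : ℝ := by
  classical
  exact ∑ i ∈ range n, ∑ j ∈ range n, if R (s i) (t j) then (1 : ℝ) else 0

open Classical in
theorem cn_eq {α : Type} (R : α → α → Prop) (n : ℕ) (s t : ℕ → α) :
    cn R n s t = #{p ∈ range n ×ˢ range n | R (s p.1) (t p.2)} := by
  unfold cn
  rw [card_filter, sum_product]
  push_cast
  refine sum_congr rfl fun i _ => sum_congr rfl fun j _ => ?_
  split_ifs <;> rfl

theorem cn_nonneg {α : Type} (R : α → α → Prop) (n : ℕ) (s t : ℕ → α) : 0 ≤ cn R n s t := by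
  classical
  unfold cn
  exact sum_nonneg fun i _ => sum_nonneg fun j _ => by split_ifs <;> norm_num

theorem cn_mono {α β : Type} (R : α → α → Prop) (R' : β → β → Prop) (n : ℕ) (s t : ℕ → α) (s' t' : ℕ → β)
    (h : ∀ i < n, ∀ j < n, R (s i) (t j) → R' (s' i) (t' j)) : cn R n s t ≤ cn R' n s' t' := by
  classical
  unfold cn
  refine sum_le_sum fun i hi => sum_le_sum fun j hj => ?_
  have := h i (mem_range.1 hi) j (mem_range.1 hj)
  split_ifs with h1 h2 h2
  · exact le_rfl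
  · exact absurd (this h1) h2
  · exact zero_le_one
  · exact le_rfl

/-- the sequence `s`, followed by the sequence `t` -/
def jo {α : Type} (n : ℕ) (s t : ℕ → α) (i : ℕ) : α := if i < n then s i else t (i - n)

theorem jo_sum {α : Type} (n : ℕ) (s t : ℕ → α) (F : α → ℝ) :
    ∑ i ∈ range (n + n), F (jo n s t i) = ∑ i ∈ range n, F (s i) + ∑ i ∈ range n, F (t i) := by
  rw [sum_range_add]
  refine congrArg₂ (fun x y : ℝ => x + y) (sum_congr rfl fun i hi => ?_) (sum_congr rfl fun i _ => ?_)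
  · unfold jo
    rw [if_pos (mem_range.1 hi)]
  · unfold jo
    rw [if_neg (show ¬ n + i < n by omega), Nat.add_sub_cancel_left]

theorem jo_cn {α : Type} (R : α → α → Prop) (hR : ∀ s t, R s t → R t s) (n : ℕ) (s t : ℕ → α) :
    cn R (n + n) (jo n s t) (jo n s t) = cn R n s s + cn R n t t + 2 * cn R n s t := by
  classical
  have e1 : cn R (n + n) (jo n s t) (jo n s t) = cn R n s s + cn R n s t + (cn R n t s + cn R n t t) := by
    have hj : ∀ u : α, (∑ j ∈ range (n + n), if R u (jo n s t j) then (1 : ℝ) else 0) =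
        (∑ j ∈ range n, if R u (s j) then (1 : ℝ) else 0) + ∑ j ∈ range n, if R u (t j) then (1 : ℝ) else 0 :=
      fun u => jo_sum n s t fun v => if R u v then (1 : ℝ) else 0
    unfold cn
    rw [jo_sum n s t fun u => ∑ j ∈ range (n + n), if R u (jo n s t j) then (1 : ℝ) else 0]
    simp only [hj, sum_add_distrib]
  have e3 : cn R n t s = cn R n s t := by
    have h1 : ∀ x y : α, R x y ↔ R y x := fun x y => ⟨hR x y, hR y x⟩
    unfold cn
    rw [sum_comm]
    refine sum_congr rfl fun i _ => sum_congr rfl fun j _ => ?_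
    simp only [h1 (t j) (s i)]
  rw [e1, e3]
  ring

theorem jo_mu {α : Type} (n : ℕ) (s t : ℕ → α) (x : α) : mu (n + n) (jo n s t) x = mu n s x + mu n t x := by
  classical
  unfold mu
  rw [card_filter, card_filter, card_filter, sum_range_add]
  refine congrArg₂ (fun x y : ℕ => x + y) (sum_congr rfl fun i hi => ?_) (sum_congr rfl fun i _ => ?_)
  · unfold jo
    rw [if_pos (mem_range.1 hi)]
  · unfold jo
    rw [if_neg (show ¬ n + i < n by omega), Nat.add_sub_cancel_left]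

/-- the class: positive slopes, no prime divides the product of all values, every form at most `η n` times -/
def Cl (η : ℝ) (n : ℕ) (f : ℕ → ℕ × ℤ) : Prop :=
  0 < n ∧ (∀ i < n, 0 < (f i).1) ∧ (∀ l : ℕ, l.Prime → ∃ m : ℕ, ∀ i < n, ¬ (l : ℤ) ∣ ((f i).1 : ℤ) * m + (f i).2) ∧
    ∀ x, (mu n f x : ℝ) ≤ η * n

theorem Cl_one (η : ℝ) (n : ℕ) (f : ℕ → ℕ × ℤ) (h : Cl η n f) : 1 ≤ η * n := by
  classical
  refine le_trans ?_ (h.2.2.2 (f 0))
  exact_mod_cast mu_pos n f h.1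

/-- a third of the pairs of a sequence of the class -/
theorem low_cl (hQ : Qk 4) (ε : ℝ) (hε : 0 < ε) : ∃ η : ℝ, 0 < η ∧ ∀ (n : ℕ) (f : ℕ → ℕ × ℤ), Cl η n f →
    (1 / 3 - ε) * (n : ℝ) ^ 2 ≤ cn PP n f f := by
  classical
  obtain ⟨C, δ, hC, hδ, -, hQ⟩ := hQ
  -- the number `L`
  obtain ⟨L, hL1, hL⟩ : ∃ L : ℕ, 1 ≤ L ∧ C * (L : ℝ) ^ (-δ) ≤ ε / 3 := by
    have h1 : Filter.Tendsto (fun L : ℕ => C * (L : ℝ) ^ (-δ)) Filter.atTop (nhds (C * 0)) :=
      ((tendsto_rpow_neg_atTop hδ).comp tendsto_natCast_atTop_atTop).const_mul C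
    rw [mul_zero] at h1
    obtain ⟨L, h2, h3⟩ := ((h1.eventually (gt_mem_nhds (show (0 : ℝ) < ε / 3 by positivity))).and
      (Filter.eventually_ge_atTop 1)).exists
    exact ⟨L, h3, h2.le⟩
  have hL0 : (0 : ℝ) < L := by exact_mod_cast hL1
  refine ⟨ε / (48 * L), by positivity, ?_⟩
  intro n f hf
  obtain ⟨η, hη⟩ : ∃ η : ℝ, η = ε / (48 * L) := ⟨_, rfl⟩
  rw [← hη] at hf
  have hηL : 8 * η * L = ε / 6 := by
    rw [hη]
    field_simp
    norm_num
  have hη0 : 0 < η := by rw [hη]; positivity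
  have hη1 : η ≤ ε / 48 := by
    rw [hη]
    have h1 : (1 : ℝ) ≤ L := by exact_mod_cast hL1
    exact div_le_div_of_nonneg_left hε.le (by norm_num) (by nlinarith)
  have h1 := Cl_one η n f hf
  obtain ⟨hn, hpos, hTA, hmu⟩ := hf
  have hn0 : (0 : ℝ) < n := by exact_mod_cast hn
  obtain ⟨R, hR⟩ : ∃ R : ℕ → ℕ → Prop, R = fun i j => i ≠ j ∧ ¬ PP (f i) (f j) := ⟨_, rfl⟩
  have hMM := MM (range n) R (fun x y h => by
    rw [hR] at h ⊢
    exact ⟨h.1.symm, fun hp => h.2 (PP_symm _ _ hp)⟩) (fun x h => by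
    rw [hR] at h
    exact h.1 rfl)
  rw [card_range] at hMM
  have hbad := bad_le n f (fun g : Fin 4 → ℕ × ℤ => Adm g ∧ ¬ Many g) L (C * (L : ℝ) ^ (-δ)) η (by positivity) hmu h1 (by
    intro F hF hFi
    have h2 := hQ F L hL1 hF (by
      intro i x hx
      obtain ⟨j, hj, rfl⟩ := hFi i x hx
      exact hpos j hj)
    rw [mul_right_comm] at h2
    exact h2)
  have hN4 : (#{t ∈ range n ×ˢ range n ×ˢ range n ×ˢ range n | R t.1 t.2.1 ∧ R t.1 t.2.2.1 ∧ R t.1 t.2.2.2 ∧ R t.2.1 t.2.2.1 ∧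
      R t.2.1 t.2.2.2 ∧ R t.2.2.1 t.2.2.2} : ℝ) ≤ (ε / 3 + ε / 6) * (n : ℝ) ^ 4 := by
    have h2 : #{t ∈ range n ×ˢ range n ×ˢ range n ×ˢ range n | R t.1 t.2.1 ∧ R t.1 t.2.2.1 ∧ R t.1 t.2.2.2 ∧ R t.2.1 t.2.2.1 ∧
      R t.2.1 t.2.2.2 ∧ R t.2.2.1 t.2.2.2} ≤
        #{t ∈ Fintype.piFinset (fun _ : Fin 4 => range n) | Adm (f ∘ t) ∧ ¬ Many (f ∘ t)} := by
      refine card_le_card_of_injOn (fun t => ![t.1, t.2.1, t.2.2.1, t.2.2.2]) ?_ ?_
      · intro t ht
        have ht' := mem_filter.mp (mem_coe.mp ht)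
        obtain ⟨h1, r1, r2, r3, r4, r5, r6⟩ := ht'
        rw [mem_product, mem_product, mem_product] at h1
        obtain ⟨a1, a2, a3, a4⟩ := h1
        have hmem : ∀ i : Fin 4, (![t.1, t.2.1, t.2.2.1, t.2.2.2] : Fin 4 → ℕ) i ∈ range n := by
          intro i
          fin_cases i
          · exact a1
          · exact a2
          · exact a3
          · exact a4
        apply mem_coe.mpr
        rw [mem_filter, Fintype.mem_piFinset]
        refine ⟨hmem, ?_, ?_⟩
        · intro p hp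
          obtain ⟨m, hm⟩ := hTA p hp
          exact ⟨m, fun i => hm _ (mem_range.1 (hmem i))⟩
        · intro hM
          obtain ⟨i, j, hij, hp⟩ := QP_pair _ hM
          have hsym : ∀ x y : ℕ, R x y → ¬ PP (f x) (f y) ∧ ¬ PP (f y) (f x) := by
            intro x y h
            rw [hR] at h
            exact ⟨h.2, fun h' => h.2 (PP_symm _ _ h')⟩
          have hp' : PP (f ((![t.1, t.2.1, t.2.2.1, t.2.2.2] : Fin 4 → ℕ) i)) (f ((![t.1, t.2.1, t.2.2.1, t.2.2.2] : Fin 4 → ℕ) j)) := hp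
          fin_cases i <;> fin_cases j
          · exact hij rfl
          · exact (hsym _ _ r1).1 hp'
          · exact (hsym _ _ r2).1 hp'
          · exact (hsym _ _ r3).1 hp'
          · exact (hsym _ _ r1).2 hp'
          · exact hij rfl
          · exact (hsym _ _ r4).1 hp'
          · exact (hsym _ _ r5).1 hp'
          · exact (hsym _ _ r2).2 hp'
          · exact (hsym _ _ r4).2 hp'
          · exact hij rfl
          · exact (hsym _ _ r6).1 hp'
          · exact (hsym _ _ r3).2 hp'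
          · exact (hsym _ _ r5).2 hp'
          · exact (hsym _ _ r6).2 hp'
          · exact hij rfl
      · intro t _ t' _ h
        have h0 := congrFun h 0
        have h1 := congrFun h 1
        have h2 := congrFun h 2
        have h3 := congrFun h 3
        simp only [Matrix.cons_val_zero, Matrix.cons_val_one, Matrix.cons_val] at h0 h1 h2 h3
        exact Prod.ext h0 (Prod.ext h1 (Prod.ext h2 h3))
    refine le_trans (Nat.cast_le.2 h2) (hbad.trans ?_)
    refine mul_le_mul_of_nonneg_right ?_ (by positivity)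
    linarith
  obtain ⟨N4, hN4e⟩ : ∃ N4 : ℝ, N4 = #{t ∈ range n ×ˢ range n ×ˢ range n ×ˢ range n | R t.1 t.2.1 ∧ R t.1 t.2.2.1 ∧ R t.1 t.2.2.2 ∧
      R t.2.1 t.2.2.1 ∧ R t.2.1 t.2.2.2 ∧ R t.2.2.1 t.2.2.2} := ⟨_, rfl⟩
  rw [← hN4e] at hN4
  obtain ⟨N2, hN2⟩ : ∃ N2 : ℝ, N2 = #{p ∈ range n ×ˢ range n | R p.1 p.2} := ⟨_, rfl⟩
  have hMM' : (n : ℝ) ^ 2 * N2 ≤ 2 / 3 * (n : ℝ) ^ 4 + 3 / 2 * N4 := by
    rw [hN2, hN4e]
    exact hMM
  have hN2' : N2 ≤ (2 / 3 + 3 / 4 * ε) * (n : ℝ) ^ 2 := by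
    have h3 : (n : ℝ) ^ 2 * N2 ≤ (n : ℝ) ^ 2 * ((2 / 3 + 3 / 4 * ε) * (n : ℝ) ^ 2) := by
      calc (n : ℝ) ^ 2 * N2 ≤ 2 / 3 * (n : ℝ) ^ 4 + 3 / 2 * ((ε / 3 + ε / 6) * (n : ℝ) ^ 4) := by linarith
        _ = _ := by ring
    exact le_of_mul_le_mul_left h3 (by positivity)
  -- all pairs
  have hall : (n : ℝ) ^ 2 ≤ cn PP n f f + N2 + n := by
    rw [cn_eq, hN2]
    have h3 : range n ×ˢ range n ⊆ ({p ∈ range n ×ˢ range n | PP (f p.1) (f p.2)} ∪ {p ∈ range n ×ˢ range n | R p.1 p.2}) ∪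
        (range n).diag := by
      intro p hp
      rw [mem_union, mem_union, mem_filter, mem_filter, mem_diag]
      by_cases h4 : p.1 = p.2
      · exact Or.inr ⟨(mem_product.1 hp).1, h4⟩
      · by_cases h5 : PP (f p.1) (f p.2)
        · exact Or.inl (Or.inl ⟨hp, h5⟩)
        · refine Or.inl (Or.inr ⟨hp, ?_⟩)
          rw [hR]
          exact ⟨h4, h5⟩
    have h4 := (card_le_card h3).trans ((card_union_le _ _).trans (Nat.add_le_add_right (card_union_le _ _) _))
    rw [card_product, card_range, diag_card, card_range] at h4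
    have h5 : ((n * n : ℕ) : ℝ) ≤ ((#{p ∈ range n ×ˢ range n | PP (f p.1) (f p.2)} + #{p ∈ range n ×ˢ range n | R p.1 p.2} + n : ℕ) : ℝ) := by
      exact_mod_cast h4
    push_cast at h5
    rw [sq]
    exact h5
  have hn1 : (n : ℝ) ≤ ε / 48 * (n : ℝ) ^ 2 := by
    calc (n : ℝ) = 1 * n := by ring
      _ ≤ (η * n) * n := mul_le_mul_of_nonneg_right h1 hn0.le
      _ = η * (n : ℝ) ^ 2 := by ring
      _ ≤ _ := mul_le_mul_of_nonneg_right hη1 (by positivity)
  have hn2 : (0 : ℝ) < (n : ℝ) ^ 2 := by positivity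
  nlinarith

end Pool.Agent.MM
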