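import Pool.Agent.helper72.MM.X0
import Pool.Agent.helper16.AL.LNV
import Pool.Agent.helper17.AT.PRT

/-!
# Project MM (MP_bf63dc_nt): the minimal sequence of forms, and the theorem for all `a, b, c`
-/

set_option autoImplicit false

namespace Pool.Agent.MM

open Finset Pool.Agent.AT

/-- an almost minimal sequence -/
theorem min_cl (hQ : Qk 4) (ε : ℝ) (hε : 0 < ε) : ∃ (η : ℝ) (n : ℕ) (f : ℕ → ℕ × ℤ) (d : ℝ), 0 < η ∧ η ≤ ε ∧ 1 / 3 - ε ≤ d ∧
    (∀ (m : ℕ) (g : ℕ → ℕ × ℤ), Cl η m g → d * (m : ℝ) ^ 2 ≤ cn PP m g g) ∧ Cl η n f ∧ cn PP n f f ≤ (d + ε) * (n : ℝ) ^ 2 := by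
  classical
  obtain ⟨η₀, hη₀, hlow₀⟩ := low_cl hQ ε hε
  obtain ⟨η, hη⟩ : ∃ η : ℝ, η = min η₀ ε := ⟨_, rfl⟩
  have hη0 : 0 < η := by rw [hη]; exact lt_min hη₀ hε
  have hlow : ∀ (m : ℕ) (g : ℕ → ℕ × ℤ), Cl η m g → (1 / 3 - ε) * (m : ℝ) ^ 2 ≤ cn PP m g g := by
    intro m g hg
    refine hlow₀ m g ⟨hg.1, hg.2.1, hg.2.2.1, fun x => (hg.2.2.2 x).trans ?_⟩
    refine mul_le_mul_of_nonneg_right ?_ (Nat.cast_nonneg _)
    rw [hη]
    exact min_le_left _ _
  obtain ⟨A, hA⟩ : ∃ A : Set ℝ, A = {x | ∃ (n : ℕ) (f : ℕ → ℕ × ℤ), Cl η n f ∧ x = cn PP n f f / (n : ℝ) ^ 2} := ⟨_, rfl⟩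
  have hne : A.Nonempty := by
    obtain ⟨n, hn⟩ := exists_nat_gt (1 / η)
    have hn0 : (0 : ℝ) < n := lt_trans (by positivity) hn
    have hn1 : 1 ≤ η * n := by
      rw [div_lt_iff₀ hη0] at hn
      linarith
    refine ⟨cn PP n (fun i => (i + 1, 1)) (fun i => (i + 1, 1)) / (n : ℝ) ^ 2, ?_⟩
    rw [hA]
    refine ⟨n, fun i => (i + 1, 1), ⟨by exact_mod_cast hn0, fun i _ => Nat.succ_pos _, ?_, fun x => ?_⟩, rfl⟩
    · intro l hl
      refine ⟨0, fun i _ h => ?_⟩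
      dsimp only at h
      rw [Nat.cast_zero, mul_zero, zero_add] at h
      have h1 : l ∣ 1 := by exact_mod_cast h
      exact hl.one_lt.ne' (Nat.dvd_one.1 h1)
    · refine le_trans ?_ hn1
      have : mu n (fun i => ((i + 1, 1) : ℕ × ℤ)) x ≤ 1 := by
        refine mu_inj _ _ (fun i j h1 => ?_) x
        have h2 := congrArg Prod.fst h1
        dsimp only at h2
        omega
      exact_mod_cast this
  have hbd : BddBelow A := by
    refine ⟨0, ?_⟩
    rintro x hx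
    rw [hA] at hx
    obtain ⟨n, s, -, rfl⟩ := hx
    exact div_nonneg (cn_nonneg _ _ _ _) (by positivity)
  obtain ⟨x, hx, hx2⟩ := exists_lt_of_csInf_lt hne (show sInf A < sInf A + ε by linarith)
  rw [hA] at hx
  obtain ⟨n, f, hf, hxe⟩ := hx
  have hn0 : (0 : ℝ) < n := by exact_mod_cast hf.1
  refine ⟨η, n, f, sInf A, hη0, by rw [hη]; exact min_le_right _ _, ?_, ?_, hf, ?_⟩
  · refine le_csInf hne ?_
    rintro y hy
    rw [hA] at hy
    obtain ⟨m, t, ht, rfl⟩ := hy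
    have hm0 : (0 : ℝ) < m := by exact_mod_cast ht.1
    rw [le_div_iff₀ (by positivity)]
    exact hlow m t ht
  · intro m g hg
    have hm0 : (0 : ℝ) < m := by exact_mod_cast hg.1
    have h1 : cn PP m g g / (m : ℝ) ^ 2 ∈ A := by
      rw [hA]
      exact ⟨_, _, hg, rfl⟩
    have h2 := csInf_le hbd h1
    rw [le_div_iff₀ (by positivity)] at h2
    exact h2
  · have h6 : cn PP n f f = x * (n : ℝ) ^ 2 := by
      rw [hxe]
      field_simp
    rw [h6]
    exact mul_le_mul_of_nonneg_right hx2.le (by positivity)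

/-- one `m` for finitely many primes -/
theorem crt (n : ℕ) (f : ℕ → ℕ × ℤ) (hTA : ∀ l : ℕ, l.Prime → ∃ m : ℕ, ∀ i < n, ¬ (l : ℤ) ∣ ((f i).1 : ℤ) * m + (f i).2)
    (T : Finset ℕ) (hT : ∀ l ∈ T, l.Prime) : ∃ m : ℕ, ∀ l ∈ T, ∀ i < n, ¬ (l : ℤ) ∣ ((f i).1 : ℤ) * m + (f i).2 := by
  classical
  induction T using Finset.induction_on with
  | empty => exact ⟨0, fun l hl => absurd hl (notMem_empty _)⟩
  | insert p T hp ih =>
    obtain ⟨m₁, h1⟩ := ih fun l hl => hT l (mem_insert_of_mem hl)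
    obtain ⟨m₂, h2⟩ := hTA p (hT p (mem_insert_self _ _))
    have hco : Nat.Coprime p (∏ l ∈ T, l) := by
      refine Nat.Coprime.prod_right fun l hl => ?_
      refine (Nat.coprime_primes (hT p (mem_insert_self _ _)) (hT l (mem_insert_of_mem hl))).2 ?_
      rintro rfl
      exact hp hl
    obtain ⟨m, hm1, hm2⟩ := Nat.chineseRemainder hco m₂ m₁
    have key : ∀ (l m' : ℕ), m ≡ m' [MOD l] → ∀ i, (l : ℤ) ∣ ((f i).1 : ℤ) * m + (f i).2 → (l : ℤ) ∣ ((f i).1 : ℤ) * m' + (f i).2 := by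
      intro l m' hmod i h
      have h3 : (l : ℤ) ∣ (m' : ℤ) - m := (Nat.modEq_iff_dvd).1 hmod
      have h4 : ((f i).1 : ℤ) * m' + (f i).2 = ((f i).1 : ℤ) * m + (f i).2 + ((f i).1 : ℤ) * ((m' : ℤ) - m) := by ring
      rw [h4]
      exact dvd_add h (Dvd.dvd.mul_left h3 _)
    refine ⟨m, fun l hl i hi h => ?_⟩
    rcases mem_insert.1 hl with rfl | hl
    · exact h2 i hi (key _ _ hm1 i h)
    · exact h1 l hl i hi (key l m₁ (hm2.of_dvd (dvd_prod_of_mem _ hl)) i h)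

theorem sb_inj (g v w : ℕ × ℤ) (hg : 0 < g.1) (h : sb g v = sb g w) : v = w := by
  unfold sb at h
  have h1 := congrArg Prod.fst h
  have h2 := congrArg Prod.snd h
  dsimp only at h1 h2
  have h3 : v.1 = w.1 := Nat.eq_of_mul_eq_mul_right hg h1
  refine Prod.ext h3 ?_
  rw [h3] at h2
  linarith

theorem mu_sb (η : ℝ) (n : ℕ) (f : ℕ → ℕ × ℤ) (g : ℕ × ℤ) (hg : 0 < g.1) (hη : 0 ≤ η) (h : ∀ x, (mu n f x : ℝ) ≤ η * n) (x : ℕ × ℤ) :
    (mu n (fun i => sb g (f i)) x : ℝ) ≤ η * n := by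
  exact mu_comp η n f (sb g) (fun v w h => sb_inj g v w hg h) hη h x

/-- the local condition -/
def LC (a b : ℕ) (c : ℤ) (v : ℕ × ℤ) : Prop := IsCoprime ((v.1 : ℤ) * c + b * v.2) a ∧ IsCoprime ((v.1 : ℤ) * c - a * v.2) b

/-- the equation `b x - a y = c` with `v(x)`, `w(y)` prime for infinitely many `n`, where `x = a n + r`, `y = b n + r'` -/
def EQ (a b : ℕ) (c : ℤ) (v w : ℕ × ℤ) : Prop :=
  ∃ r r' : ℤ, (b : ℤ) * r - a * r' = c ∧ PP (sb (a, r) v) (sb (b, r') w) ∧ Pair (sb (a, r) v) (sb (b, r') w)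

/-- **a third of the equations near every equation** -/
theorem near (hQ : Qk 4) (ε : ℝ) (hε : 0 < ε) : ∃ (n : ℕ) (v : ℕ → ℕ × ℤ), 0 < n ∧ (∀ i < n, 0 < (v i).1) ∧
    (∀ l : ℕ, l.Prime → l ≤ 4 * n → ∀ i < n, l ∣ (v i).1) ∧
    (∀ l : ℕ, l.Prime → ∀ i < n, l ∣ (v i).1 → ¬ (l : ℤ) ∣ (v i).2) ∧
    ∀ (a b : ℕ) (c : ℤ), 1 ≤ a → 1 ≤ b → Nat.Coprime a b → (∀ i < n, LC a b c (v i)) →
      (1 / 3 - ε) * (n : ℝ) ^ 2 ≤ cn (EQ a b c) n v v := by
  classical
  obtain ⟨η, n, f, d, hη0, hηε, hd, hmin, hf, hfd⟩ := min_cl hQ (ε / 4) (by positivity)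
  obtain ⟨hn, hpos, hTA, hmu⟩ := hf
  have hn0 : (0 : ℝ) < n := by exact_mod_cast hn
  -- fixed residues modulo the primes `≤ 4 n`
  obtain ⟨m₀, hm₀⟩ := crt n f hTA {l ∈ range (4 * n + 1) | l.Prime} fun l hl => (mem_filter.1 hl).2
  have hm0 : ∀ l : ℕ, l.Prime → l ≤ 4 * n → ∀ i < n, ¬ (l : ℤ) ∣ ((f i).1 : ℤ) * m₀ + (f i).2 := by
    intro l hl hl4
    exact hm₀ l (mem_filter.2 ⟨mem_range.2 (by omega), hl⟩)
  obtain ⟨P, hP⟩ : ∃ P : ℕ, P = (4 * n).factorial := ⟨_, rfl⟩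
  have hP0 : 0 < P := by rw [hP]; exact Nat.factorial_pos _
  obtain ⟨v, hv⟩ : ∃ v : ℕ → ℕ × ℤ, v = fun i => sb (P, (m₀ : ℤ)) (f i) := ⟨_, rfl⟩
  have hv1 : ∀ i, (v i).1 = (f i).1 * P := fun i => by rw [hv]; rfl
  have hv2 : ∀ i, (v i).2 = ((f i).1 : ℤ) * m₀ + (f i).2 := fun i => by rw [hv]; rfl
  have hvpos : ∀ i < n, 0 < (v i).1 := fun i hi => by rw [hv1]; exact Nat.mul_pos (hpos i hi) hP0
  have hvS : ∀ l : ℕ, l.Prime → l ≤ 4 * n → ∀ i < n, l ∣ (v i).1 ∧ ¬ (l : ℤ) ∣ (v i).2 := by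
    intro l hl hl4 i hi
    refine ⟨?_, ?_⟩
    · rw [hv1, hP]
      exact Dvd.dvd.mul_left (Nat.dvd_factorial hl.pos hl4) _
    · rw [hv2]
      exact hm0 l hl hl4 i hi
  have hvP : ∀ l : ℕ, l.Prime → ∀ i < n, l ∣ (v i).1 → ¬ (l : ℤ) ∣ (v i).2 := by
    intro l hl i hi hdv h
    by_cases hl4 : l ≤ 4 * n
    · exact (hvS l hl hl4 i hi).2 h
    · rw [hv1] at hdv
      rcases (Nat.Prime.dvd_mul hl).1 hdv with h1 | h1
      · obtain ⟨m, hm⟩ := hTA l hl
        apply hm i hi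
        rw [hv2] at h
        have h2 : (l : ℤ) ∣ ((f i).1 : ℤ) := by exact_mod_cast h1
        have h3 : (l : ℤ) ∣ (f i).2 := (dvd_add_right (Dvd.dvd.mul_right h2 _)).1 h
        exact dvd_add (Dvd.dvd.mul_right h2 _) h3
      · rw [hP] at h1
        exact hl4 ((Nat.Prime.dvd_factorial hl).1 h1)
  have hvmu : ∀ x, (mu n v x : ℝ) ≤ η * n := by
    rw [hv]
    exact mu_sb η n f (P, (m₀ : ℤ)) hP0 hη0.le hmu
  have hvd : cn PP n v v ≤ (d + ε / 4) * (n : ℝ) ^ 2 := by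
    refine le_trans (cn_mono PP PP n v v f f fun i _ j _ h => ?_) hfd
    rw [hv] at h
    exact PP_sb _ _ _ hP0 h
  refine ⟨n, v, hn, hvpos, fun l hl hl4 i hi => (hvS l hl hl4 i hi).1, hvP, ?_⟩
  intro a b c ha hb hab hLC
  -- a solution of `b r - a r' = c`
  obtain ⟨r, r', hrr⟩ : ∃ r r' : ℤ, (b : ℤ) * r - a * r' = c := by
    have h1 : IsCoprime (b : ℤ) (a : ℤ) := (Nat.isCoprime_iff_coprime.2 hab).symm
    obtain ⟨x, y, hxy⟩ := h1
    refine ⟨x * c, -(y * c), ?_⟩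
    linear_combination c * hxy
  obtain ⟨s, hs⟩ : ∃ s : ℕ → ℕ × ℤ, s = fun i => sb (a, r) (v i) := ⟨_, rfl⟩
  obtain ⟨t, ht⟩ : ∃ t : ℕ → ℕ × ℤ, t = fun i => sb (b, r') (v i) := ⟨_, rfl⟩
  have hs1 : ∀ i, (s i).1 = (v i).1 * a := fun i => by rw [hs]; rfl
  have hs2 : ∀ i, (s i).2 = ((v i).1 : ℤ) * r + (v i).2 := fun i => by rw [hs]; rfl
  have ht1 : ∀ i, (t i).1 = (v i).1 * b := fun i => by rw [ht]; rfl
  have ht2 : ∀ i, (t i).2 = ((v i).1 : ℤ) * r' + (v i).2 := fun i => by rw [ht]; rfl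
  have hprS : ∀ l : ℕ, l.Prime → ∀ i < n, l ∣ (s i).1 → ¬ (l : ℤ) ∣ (s i).2 := by
    intro l hl i hi hdv h
    rw [hs1] at hdv
    rw [hs2] at h
    have hlz : Prime (l : ℤ) := Nat.prime_iff_prime_int.1 hl
    rcases (Nat.Prime.dvd_mul hl).1 hdv with h1 | h1
    · apply hvP l hl i hi h1
      have h2 : (l : ℤ) ∣ ((v i).1 : ℤ) := by exact_mod_cast h1
      exact (dvd_add_right (Dvd.dvd.mul_right h2 _)).1 h
    · have h2 : (l : ℤ) ∣ (a : ℤ) := by exact_mod_cast h1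
      have h3 : (l : ℤ) ∣ ((v i).1 : ℤ) * c + b * (v i).2 := by
        have h4 : ((v i).1 : ℤ) * c + b * (v i).2 = b * (((v i).1 : ℤ) * r + (v i).2) - a * (r' * (v i).1) := by
          rw [← hrr]
          ring
        rw [h4]
        exact dvd_sub (Dvd.dvd.mul_left h _) (Dvd.dvd.mul_right h2 _)
      exact hlz.not_isUnit ((hLC i hi).1.isUnit_of_dvd' h3 h2)
  have hprT : ∀ l : ℕ, l.Prime → ∀ i < n, l ∣ (t i).1 → ¬ (l : ℤ) ∣ (t i).2 := by
    intro l hl i hi hdv h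
    rw [ht1] at hdv
    rw [ht2] at h
    have hlz : Prime (l : ℤ) := Nat.prime_iff_prime_int.1 hl
    rcases (Nat.Prime.dvd_mul hl).1 hdv with h1 | h1
    · apply hvP l hl i hi h1
      have h2 : (l : ℤ) ∣ ((v i).1 : ℤ) := by exact_mod_cast h1
      exact (dvd_add_right (Dvd.dvd.mul_right h2 _)).1 h
    · have h2 : (l : ℤ) ∣ (b : ℤ) := by exact_mod_cast h1
      have h3 : (l : ℤ) ∣ ((v i).1 : ℤ) * c - a * (v i).2 := by
        have h4 : ((v i).1 : ℤ) * c - a * (v i).2 = b * (r * (v i).1) - a * (((v i).1 : ℤ) * r' + (v i).2) := by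
          rw [← hrr]
          ring
        rw [h4]
        exact dvd_sub (Dvd.dvd.mul_right h2 _) (Dvd.dvd.mul_left h _)
      exact hlz.not_isUnit ((hLC i hi).2.isUnit_of_dvd' h3 h2)
  -- the joint sequence is in the class
  have hjo : ∀ i < n + n, ∃ j < n, jo n s t i = s j ∨ jo n s t i = t j := by
    intro i hi
    unfold jo
    by_cases h : i < n
    · exact ⟨i, h, Or.inl (if_pos h)⟩
    · exact ⟨i - n, by omega, Or.inr (if_neg h)⟩
  have hjTA : ∀ l : ℕ, l.Prime → ∃ m : ℕ, ∀ i < n + n, ¬ (l : ℤ) ∣ ((jo n s t i).1 : ℤ) * m + (jo n s t i).2 := by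
    intro l hl
    by_cases hl4 : l ≤ 4 * n
    · refine ⟨0, fun i hi h => ?_⟩
      rw [Nat.cast_zero, mul_zero, zero_add] at h
      obtain ⟨j, hj, h1 | h1⟩ := hjo i hi
      · rw [h1] at h
        refine hprS l hl j hj ?_ h
        rw [hs1]
        exact Dvd.dvd.mul_right (hvS l hl hl4 j hj).1 _
      · rw [h1] at h
        refine hprT l hl j hj ?_ h
        rw [ht1]
        exact Dvd.dvd.mul_right (hvS l hl hl4 j hj).1 _
    · obtain ⟨m, hm⟩ := Pool.Agent.AL.LNV l ((range (n + n)).image (jo n s t)) hl (by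
        have h1 := card_image_le (s := range (n + n)) (f := jo n s t)
        rw [card_range] at h1
        omega) (by
        intro x hx hdv
        obtain ⟨i, hi, rfl⟩ := mem_image.1 hx
        obtain ⟨j, hj, h1 | h1⟩ := hjo i (mem_range.1 hi)
        · rw [h1] at hdv ⊢
          exact hprS l hl j hj hdv
        · rw [h1] at hdv ⊢
          exact hprT l hl j hj hdv)
      exact ⟨m, fun i hi => hm _ (mem_image_of_mem _ (mem_range.2 hi))⟩
  have hsmu : ∀ x, (mu n s x : ℝ) ≤ η * n := by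
    rw [hs]
    exact mu_sb η n v (a, r) ha hη0.le hvmu
  have htmu : ∀ x, (mu n t x : ℝ) ≤ η * n := by
    rw [ht]
    exact mu_sb η n v (b, r') hb hη0.le hvmu
  have hjCl : Cl η (n + n) (jo n s t) := by
    refine ⟨by omega, ?_, hjTA, ?_⟩
    · intro i hi
      obtain ⟨j, hj, h1 | h1⟩ := hjo i hi
      · rw [h1, hs1]
        exact Nat.mul_pos (hvpos j hj) ha
      · rw [h1, ht1]
        exact Nat.mul_pos (hvpos j hj) hb
    · intro x
      rw [jo_mu]
      have h1 := hsmu x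
      have h2 := htmu x
      push_cast
      linarith
  have hmain := hmin _ _ hjCl
  rw [jo_cn PP PP_symm] at hmain
  have hss : cn PP n s s ≤ cn PP n v v := cn_mono PP PP n s s v v fun i _ j _ h => by
    rw [hs] at h
    exact PP_sb (a, r) _ _ ha h
  have htt : cn PP n t t ≤ cn PP n v v := cn_mono PP PP n t t v v fun i _ j _ h => by
    rw [ht] at h
    exact PP_sb (b, r') _ _ hb h
  have hcross : (d - ε / 4) * (n : ℝ) ^ 2 ≤ cn PP n s t := by
    push_cast at hmain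
    nlinarith
  -- the equal pairs
  have hadd : cn PP n s t ≤ cn (EQ a b c) n v v + cn (fun x y : ℕ × ℤ => x = y) n s t := by
    unfold cn
    rw [← sum_add_distrib]
    refine sum_le_sum fun i hi => ?_
    rw [← sum_add_distrib]
    refine sum_le_sum fun j hj => ?_
    by_cases h1 : PP (s i) (t j)
    · rw [if_pos h1]
      by_cases h2 : s i = t j
      · rw [if_pos h2]
        split_ifs <;> norm_num
      · rw [if_neg h2]
        have h2' : sb (a, r) (v i) ≠ sb (b, r') (v j) := by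
          rw [hs, ht] at h2
          exact h2
        have h1' : PP (sb (a, r) (v i)) (sb (b, r') (v j)) := by
          rw [hs, ht] at h1
          exact h1
        have h3 : EQ a b c (v i) (v j) := by
          refine ⟨r, r', hrr, h1', ?_⟩
          have hi' := mem_range.1 hi
          have hj' := mem_range.1 hj
          refine PRT _ _ ?_ ?_ h2' ?_ h1'
          · have := Nat.mul_pos (hvpos i hi') ha
            exact this
          · have := Nat.mul_pos (hvpos j hj') hb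
            exact this
          · intro p hp
            obtain ⟨m, hm⟩ := hjTA p hp
            refine ⟨m, fun k => ?_⟩
            fin_cases k
            · have h5 := hm i (by omega)
              have h6 : jo n s t i = sb (a, r) (v i) := by
                unfold jo
                rw [if_pos hi', hs]
              rw [h6] at h5
              exact h5
            · have h5 := hm (n + j) (by omega)
              have h6 : jo n s t (n + j) = sb (b, r') (v j) := by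
                unfold jo
                rw [if_neg (by omega), Nat.add_sub_cancel_left, ht]
              rw [h6] at h5
              exact h5
        rw [if_pos h3]
        norm_num
    · rw [if_neg h1]
      split_ifs <;> norm_num
  have heq : cn (fun x y : ℕ × ℤ => x = y) n s t ≤ η * (n : ℝ) ^ 2 := by
    exact eq_le η n s t htmu
  have hn2 : (0 : ℝ) < (n : ℝ) ^ 2 := by positivity
  nlinarith

end Pool.Agent.MM
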