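import Pool.Agent.helper72.MM.X1
import Pool.Agent.helper96.AL.JAC
import Pool.Agent.helper5.AL.OMG

/-!
# Project MM (MP_bf63dc_nt): every interval of length `C (a + b)` contains a `c` without local obstruction
-/

set_option autoImplicit false

namespace Pool.Agent.MM

open Finset Pool.Agent.AT

theorem gap (hJ : Pool.Agent.AL.JAC_stmt) (n : ℕ) (v : ℕ → ℕ × ℤ) (hn : 0 < n) (hS : ∀ l : ℕ, l.Prime → l ≤ 4 * n → ∀ i < n, l ∣ (v i).1)
    (hP : ∀ l : ℕ, l.Prime → ∀ i < n, l ∣ (v i).1 → ¬ (l : ℤ) ∣ (v i).2) :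
    ∃ C : ℕ, ∀ a b : ℕ, 1 ≤ a → 1 ≤ b → Nat.Coprime a b → ∀ u : ℤ, ∃ c : ℤ, u < c ∧ c ≤ u + C * (a + b) ∧
      ∀ i < n, LC a b c (v i) := by
  classical
  obtain ⟨C, hC⟩ := hJ n hn
  refine ⟨C, fun a b ha hb hab u => ?_⟩
  obtain ⟨B, hB⟩ : ∃ B : ℕ → Finset ℤ, B = fun l => if l ∣ a then
      (range n).image (fun i => (((-((b : ZMod l) * ((v i).2 : ZMod l))) * ((v i).1 : ZMod l)⁻¹).val : ℤ)) else
      (range n).image (fun i => ((((a : ZMod l) * ((v i).2 : ZMod l)) * ((v i).1 : ZMod l)⁻¹).val : ℤ)) := ⟨_, rfl⟩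
  have hBc : ∀ l, #(B l) ≤ n := by
    intro l
    rw [hB]
    dsimp only
    split_ifs
    · refine card_image_le.trans ?_
      rw [card_range]
    · refine card_image_le.trans ?_
      rw [card_range]
  obtain ⟨c, hc1, hc2, -, hc3⟩ := hC (a * b) 0 B (Nat.mul_pos ha hb) hBc u
  refine ⟨c, hc1, ?_, ?_⟩
  · have h1 : √((a * b : ℕ) : ℝ) ≤ a + b := by
      rw [Real.sqrt_le_left (by positivity)]
      push_cast
      nlinarith [mul_nonneg (Nat.cast_nonneg (α := ℝ) a) (Nat.cast_nonneg (α := ℝ) b), sq_nonneg ((a : ℝ)), sq_nonneg ((b : ℝ))]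
    have h2 : (c : ℝ) ≤ u + C * ((a : ℝ) + b) := hc2.trans (by
      have := mul_le_mul_of_nonneg_left h1 (Nat.cast_nonneg (α := ℝ) C)
      linarith)
    have h3 : (c : ℝ) ≤ ((u + C * (a + b) : ℤ) : ℝ) := by
      push_cast
      exact h2
    exact_mod_cast h3
  · intro i hi
    have hco : ∀ (x : ℤ) (m : ℕ), 0 < m → (∀ l : ℕ, l.Prime → l ∣ m → ¬ (l : ℤ) ∣ x) → IsCoprime x m := by
      intro x m _ h
      rw [Int.isCoprime_iff_gcd_eq_one]
      by_contra hne
      obtain ⟨l, hl, hdv⟩ := Nat.exists_prime_and_dvd hne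
      have h1 : (l : ℤ) ∣ x := dvd_trans (Int.natCast_dvd_natCast.2 hdv) (Int.gcd_dvd_left _ _)
      have h2 : (l : ℤ) ∣ (m : ℤ) := dvd_trans (Int.natCast_dvd_natCast.2 hdv) (Int.gcd_dvd_right _ _)
      exact h l hl (by exact_mod_cast h2) h1
    have hval : ∀ (l : ℕ) (z : ZMod l), l.Prime → (((z.val : ℤ)) : ZMod l) = z := by
      intro l z hl
      have := Fact.mk hl
      rw [Int.cast_natCast, ZMod.natCast_zmod_val]
    refine ⟨hco _ a ha ?_, hco _ b hb ?_⟩
    · intro l hl hla hdv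
      have := Fact.mk hl
      have hlz : Prime (l : ℤ) := Nat.prime_iff_prime_int.1 hl
      have hlb : ¬ l ∣ b := fun h => hl.one_lt.ne' (Nat.dvd_one.1 (by rw [← hab]; exact Nat.dvd_gcd hla h))
      by_cases hls : l ∣ (v i).1
      · have h1 : (l : ℤ) ∣ ((v i).1 : ℤ) := by exact_mod_cast hls
        have h2 : (l : ℤ) ∣ (b : ℤ) * (v i).2 := (dvd_add_right (Dvd.dvd.mul_right h1 _)).1 hdv
        rcases hlz.dvd_or_dvd h2 with h3 | h3
        · exact hlb (by exact_mod_cast h3)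
        · exact hP l hl i hi hls h3
      · have hl4 : 2 * n < l := by
          by_contra h
          exact hls (hS l hl (by omega) i hi)
        have hmem : l ∈ (a * b).primeFactors := Nat.mem_primeFactors.2 ⟨hl, Dvd.dvd.mul_right hla _, (Nat.mul_pos ha hb).ne'⟩
        refine hc3 l hmem hl4 (((-((b : ZMod l) * ((v i).2 : ZMod l))) * ((v i).1 : ZMod l)⁻¹).val : ℤ) ?_ ?_
        · rw [hB]
          dsimp only
          rw [if_pos hla]
          exact mem_image_of_mem (fun i => (((-((b : ZMod l) * ((v i).2 : ZMod l))) * ((v i).1 : ZMod l)⁻¹).val : ℤ)) (mem_range.2 hi)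
        · have h1 : (((v i).1 : ℕ) : ZMod l) ≠ 0 := by
            rw [Ne, ZMod.natCast_eq_zero_iff]
            exact hls
          have h2 : (((((v i).1 : ℤ)) * c + b * (v i).2 : ℤ) : ZMod l) = 0 := (ZMod.intCast_zmod_eq_zero_iff_dvd _ l).2 hdv
          push_cast at h2
          rw [← ZMod.intCast_zmod_eq_zero_iff_dvd]
          rw [Int.cast_sub, hval l _ hl]
          have h3 : (c : ZMod l) = -((b : ZMod l) * ((v i).2 : ZMod l)) * ((v i).1 : ZMod l)⁻¹ := by
            rw [eq_mul_inv_iff_mul_eq₀ h1]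
            linear_combination h2
          rw [h3, sub_self]
    · intro l hl hlb hdv
      have := Fact.mk hl
      have hlz : Prime (l : ℤ) := Nat.prime_iff_prime_int.1 hl
      have hla : ¬ l ∣ a := fun h => hl.one_lt.ne' (Nat.dvd_one.1 (by rw [← hab]; exact Nat.dvd_gcd h hlb))
      by_cases hls : l ∣ (v i).1
      · have h1 : (l : ℤ) ∣ ((v i).1 : ℤ) := by exact_mod_cast hls
        have h2 : (l : ℤ) ∣ (a : ℤ) * (v i).2 := (dvd_sub_right (Dvd.dvd.mul_right h1 _)).1 hdv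
        rcases hlz.dvd_or_dvd h2 with h3 | h3
        · exact hla (by exact_mod_cast h3)
        · exact hP l hl i hi hls h3
      · have hl4 : 2 * n < l := by
          by_contra h
          exact hls (hS l hl (by omega) i hi)
        have hmem : l ∈ (a * b).primeFactors := Nat.mem_primeFactors.2 ⟨hl, Dvd.dvd.mul_left hlb _, (Nat.mul_pos ha hb).ne'⟩
        refine hc3 l hmem hl4 ((((a : ZMod l) * ((v i).2 : ZMod l)) * ((v i).1 : ZMod l)⁻¹).val : ℤ) ?_ ?_
        · rw [hB]
          dsimp only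
          rw [if_neg hla]
          exact mem_image_of_mem (fun i => ((((a : ZMod l) * ((v i).2 : ZMod l)) * ((v i).1 : ZMod l)⁻¹).val : ℤ)) (mem_range.2 hi)
        · have h1 : (((v i).1 : ℕ) : ZMod l) ≠ 0 := by
            rw [Ne, ZMod.natCast_eq_zero_iff]
            exact hls
          have h2 : (((((v i).1 : ℤ)) * c - a * (v i).2 : ℤ) : ZMod l) = 0 := (ZMod.intCast_zmod_eq_zero_iff_dvd _ l).2 hdv
          push_cast at h2
          rw [← ZMod.intCast_zmod_eq_zero_iff_dvd]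
          rw [Int.cast_sub, hval l _ hl]
          have h3 : (c : ZMod l) = ((a : ZMod l) * ((v i).2 : ZMod l)) * ((v i).1 : ZMod l)⁻¹ := by
            rw [eq_mul_inv_iff_mul_eq₀ h1]
            linear_combination h2
          rw [h3, sub_self]

end Pool.Agent.MM
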