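import Pool.Agent.helper68.EP.UQS
import Pool.Agent.helper74.EP.WDW

/-!
# Project MM (MP_bf63dc_nt): the end point of the window

The quotient `DD a b (2 M) (-M)` of the masses of the true and of the admissible `c`, `-b M < c ≤ b M`, is at most the quotient for `|c| ≤ b M` plus
`ε`, for all large `M`. The only further `c` is `-b M`; its weight is at most `2 √(a b |c|)`, and there are at least `M/(2a) - 2` admissible `c`.
-/

set_option autoImplicit false

namespace Pool.Agent.MM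

open Finset Pool.Agent.helper85.FC Pool.Agent.OM Pool.Agent.helper11.TX Pool.Agent.AT Pool.Agent.EP

/-- the singular series is small -/
theorem SS_le (a b : ℕ) (c : ℤ) (ha : 0 < a) (hb : 0 < b) (hc : c ≠ 0) : SS a b c ≤ 2 * √((a * b * c.natAbs : ℕ) : ℝ) := by
  classical
  unfold SS
  obtain ⟨N, hN⟩ : ∃ N, N = a * b * c.natAbs := ⟨_, rfl⟩
  have hN0 : N ≠ 0 := by
    rw [hN]
    exact Nat.mul_ne_zero (Nat.mul_ne_zero ha.ne' hb.ne') (Int.natAbs_ne_zero.2 hc)
  rw [← hN]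
  have h1 : ∏ l ∈ N.primeFactors with l ≠ 2, ((l : ℝ) - 1) / ((l : ℝ) - 2) ≤
      ∏ l ∈ N.primeFactors with l ≠ 2, ((if l = 3 then (2 : ℝ) else 1) * √(l : ℝ)) := by
    refine prod_le_prod ?_ ?_
    · intro l hl
      rw [mem_filter] at hl
      have h2 := (Nat.prime_of_mem_primeFactors hl.1).two_le
      have h3 : 3 ≤ l := by have := hl.2; omega
      have h4 : (3 : ℝ) ≤ l := by exact_mod_cast h3
      exact div_nonneg (by linarith) (by linarith)
    · intro l hl
      rw [mem_filter] at hl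
      have h2 := (Nat.prime_of_mem_primeFactors hl.1).two_le
      have h3 : 3 ≤ l := by have := hl.2; omega
      have h4 : (3 : ℝ) ≤ l := by exact_mod_cast h3
      have h5 : (1 : ℝ) ≤ √(l : ℝ) := by
        rw [Real.one_le_sqrt]
        linarith
      by_cases h6 : l = 3
      · rw [if_pos h6, h6]
        rw [h6] at h5
        have h10 : (((3 : ℕ) : ℝ) - 1) / (((3 : ℕ) : ℝ) - 2) = 2 := by norm_num
        rw [h10]
        linarith
      · rw [if_neg h6, one_mul]
        have h7 : 4 ≤ l := by omega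
        have h8 : (4 : ℝ) ≤ l := by exact_mod_cast h7
        have h9 : (2 : ℝ) ≤ √(l : ℝ) := by
          rw [Real.le_sqrt (by norm_num) (by linarith)]
          linarith
        rw [div_le_iff₀ (by linarith)]
        nlinarith
  refine h1.trans ?_
  rw [prod_mul_distrib]
  have h2 : ∏ l ∈ N.primeFactors with l ≠ 2, (if l = 3 then (2 : ℝ) else 1) ≤ 2 := by
    rw [prod_ite_eq']
    split_ifs <;> norm_num
  have h3 : ∏ l ∈ N.primeFactors with l ≠ 2, √(l : ℝ) ≤ √(N : ℝ) := by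
    rw [Real.le_sqrt (prod_nonneg fun _ _ => Real.sqrt_nonneg _) (Nat.cast_nonneg _), ← prod_pow]
    have h4 : ∏ l ∈ N.primeFactors with l ≠ 2, √(l : ℝ) ^ 2 = ((∏ l ∈ N.primeFactors with l ≠ 2, l : ℕ) : ℝ) := by
      push_cast
      exact prod_congr rfl fun l _ => Real.sq_sqrt (Nat.cast_nonneg _)
    rw [h4]
    have h5 : (∏ l ∈ N.primeFactors with l ≠ 2, l) ∣ N :=
      (prod_dvd_prod_of_subset _ _ _ (filter_subset _ _)).trans (Nat.prod_primeFactors_dvd N)
    exact_mod_cast Nat.le_of_dvd (Nat.pos_of_ne_zero hN0) h5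
  have h4 : 0 ≤ ∏ l ∈ N.primeFactors with l ≠ 2, √(l : ℝ) := prod_nonneg fun _ _ => Real.sqrt_nonneg _
  calc _ ≤ 2 * ∏ l ∈ N.primeFactors with l ≠ 2, √(l : ℝ) := mul_le_mul_of_nonneg_right h2 h4
    _ ≤ _ := by linarith

theorem SS_one (a b : ℕ) (c : ℤ) : 1 ≤ SS a b c := by
  unfold SS
  refine Finset.prod_induction _ (fun x : ℝ => 1 ≤ x) (fun x y hx hy => one_le_mul_of_one_le_of_one_le hx hy) le_rfl fun l hl => ?_
  rw [mem_filter] at hl
  have h2 := (Nat.prime_of_mem_primeFactors hl.1).two_le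
  have h3 : 3 ≤ l := by have := hl.2; omega
  have h4 : (3 : ℝ) ≤ l := by exact_mod_cast h3
  rw [le_div_iff₀ (by linarith)]
  linarith

/-- many admissible `c` -/
theorem adm_many (a b M : ℕ) (ha : 1 ≤ a) (hb : 1 ≤ b) (hab : Nat.Coprime a b) :
    (M : ℝ) / (2 * a) - 2 ≤ Tw Pool.Agent.helper11.TX.Adm SS a b (2 * M) (-(M : ℤ)) := by
  classical
  have ha0 : (0 : ℝ) < a := by exact_mod_cast ha
  have hb0 : (0 : ℝ) < b := by exact_mod_cast hb
  obtain ⟨K, hK⟩ : ∃ K : ℕ, K = (b * M - a * b - 1) / (2 * a * b) := ⟨_, rfl⟩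
  have hc : ∀ t : ℕ, Pool.Agent.helper11.TX.Adm a b ((2 * a * b * t + a * b + 1 : ℕ) : ℤ) := by
    intro t
    refine ⟨ha, hb, by positivity, hab, ?_, ?_, ?_⟩
    · refine Nat.isCoprime_iff_coprime.2 ?_
      have e : 2 * a * b * t + a * b + 1 = a * (2 * b * t + b) + 1 := by ring
      rw [e]
      exact (Nat.coprime_mul_left_add_right _ _ _).2 (Nat.coprime_one_right _)
    · refine Nat.isCoprime_iff_coprime.2 ?_
      have e : 2 * a * b * t + a * b + 1 = b * (2 * a * t + a) + 1 := by ring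
      rw [e]
      exact (Nat.coprime_mul_left_add_right _ _ _).2 (Nat.coprime_one_right _)
    · rintro ⟨h1, h2, h3⟩
      have h4 : Odd (2 * a * b * t + a * b + 1) := by exact_mod_cast h3
      have h5 : Odd (a * b) := h1.mul h2
      have h6 : Even (2 * a * b * t + a * b + 1) := by
        have e : 2 * a * b * t + a * b + 1 = 2 * (a * b * t) + (a * b + 1) := by ring
        rw [e]
        exact (even_two_mul _).add (h5.add_odd odd_one)
      exact (Nat.not_odd_iff_even.2 h6) h4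
  have h1 : (K : ℝ) ≤ Tw Pool.Agent.helper11.TX.Adm SS a b (2 * M) (-(M : ℤ)) := by
    unfold Tw
    have hinj : Function.Injective fun t : ℕ => ((2 * a * b * t + a * b + 1 : ℕ) : ℤ) := by
      intro t t' h
      dsimp only at h
      have h2 : 2 * a * b * t + a * b + 1 = 2 * a * b * t' + a * b + 1 := by exact_mod_cast h
      have h3 : 2 * a * b * t = 2 * a * b * t' := by omega
      exact Nat.eq_of_mul_eq_mul_left (by positivity) h3
    have hsub : (range K).image (fun t : ℕ => ((2 * a * b * t + a * b + 1 : ℕ) : ℤ)) ⊆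
        {c ∈ Ioc ((b : ℤ) * -(M : ℤ)) ((b : ℤ) * (-(M : ℤ) + (2 * M : ℕ))) | Pool.Agent.helper11.TX.Adm a b c} := by
      intro c hc'
      obtain ⟨t, ht, rfl⟩ := mem_image.1 hc'
      rw [mem_filter, mem_Ioc]
      refine ⟨⟨?_, ?_⟩, hc t⟩
      · have h2 : (0 : ℤ) ≤ (b : ℤ) * M := by positivity
        have h3 : (0 : ℤ) < ((2 * a * b * t + a * b + 1 : ℕ) : ℤ) := by positivity
        linarith
      · have h2 := mem_range.1 ht
        rw [hK] at h2
        have h3 : 2 * a * b * (t + 1) ≤ b * M - a * b - 1 := by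
          have h4 := Nat.mul_le_of_le_div (2 * a * b) (t + 1) _ (Nat.succ_le_of_lt h2)
          linarith [h4, mul_comm (t + 1) (2 * a * b)]
        have h5 : 2 * a * b * t + a * b + 1 ≤ b * M := by
          have h6 : 2 * a * b * (t + 1) = 2 * a * b * t + 2 * (a * b) := by ring
          have h7 : 0 < a * b := Nat.mul_pos ha hb
          omega
        have h8 : ((2 * a * b * t + a * b + 1 : ℕ) : ℤ) ≤ ((b * M : ℕ) : ℤ) := by exact_mod_cast h5
        push_cast at h8 ⊢
        linarith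
    calc (K : ℝ) = ∑ _c ∈ (range K).image (fun t : ℕ => ((2 * a * b * t + a * b + 1 : ℕ) : ℤ)), (1 : ℝ) := by
          rw [sum_const, card_image_of_injective _ hinj, card_range, nsmul_eq_mul, mul_one]
      _ ≤ ∑ c ∈ (range K).image (fun t : ℕ => ((2 * a * b * t + a * b + 1 : ℕ) : ℤ)), SS a b c := sum_le_sum fun c _ => SS_one a b c
      _ ≤ _ := sum_le_sum_of_subset_of_nonneg hsub fun c _ _ => UQS_SS_nonneg a b c
  refine le_trans ?_ h1
  have h2 : (b * M - a * b - 1 : ℕ) < 2 * a * b * (K + 1) := by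
    rw [hK]
    exact Nat.lt_mul_div_succ _ (by positivity)
  have h3 : (b * M : ℕ) < 2 * a * b * (K + 1) + a * b + 1 := by omega
  have h4 : (b : ℝ) * M < 2 * a * b * (K + 1) + a * b + 1 := by exact_mod_cast h3
  have h5 : (1 : ℝ) ≤ a * b := by
    have : 1 ≤ a * b := Nat.mul_pos ha hb
    exact_mod_cast this
  have h6 : (b : ℝ) * M < 2 * a * b * (K + 2) := by nlinarith
  have h7 : (M : ℝ) < 2 * a * (K + 2) := by
    have : (b : ℝ) * M < b * (2 * a * (K + 2)) := by linarith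
    exact lt_of_mul_lt_mul_left this hb0.le
  have h8 : (M : ℝ) / (2 * a) < K + 2 := by
    rw [div_lt_iff₀ (by positivity)]
    linarith
  linarith

/-- **the end point** -/
theorem endp (a b : ℕ) (ha : 1 ≤ a) (hb : 1 ≤ b) (hab : Nat.Coprime a b) (ε : ℝ) (hε : 0 < ε) : ∃ M₀ : ℕ, ∀ M : ℕ, M₀ ≤ M →
    DD a b (2 * M) (-(M : ℤ)) ≤ Ms TrueCase a b (b * M) / Ms Pool.Agent.helper11.TX.Adm a b (b * M) + ε := by
  classical
  have ha0 : (0 : ℝ) < a := by exact_mod_cast ha
  have hb0 : (0 : ℝ) < b := by exact_mod_cast hb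
  obtain ⟨M₀, hM₀⟩ := exists_nat_ge (max ((8 * (a : ℝ) ^ 2 * b / ε) ^ 2) (8 * (a : ℝ)))
  refine ⟨M₀ + 1, fun M hM => ?_⟩
  have hM1 : (M₀ : ℝ) + 1 ≤ M := by exact_mod_cast hM
  have hM2 : (8 * (a : ℝ) ^ 2 * b / ε) ^ 2 ≤ M := ((le_max_left _ _).trans hM₀).trans (by linarith)
  have hM3 : 8 * (a : ℝ) ≤ M := ((le_max_right _ _).trans hM₀).trans (by linarith)
  have hM0 : (0 : ℝ) < M := by linarith [mul_pos (by norm_num : (0 : ℝ) < 8) ha0]
  have hMn : 0 < M := by exact_mod_cast hM0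
  obtain ⟨A, hA⟩ : ∃ A, A = Tw Pool.Agent.helper11.TX.Adm SS a b (2 * M) (-(M : ℤ)) := ⟨_, rfl⟩
  obtain ⟨T, hT⟩ : ∃ T, T = Tw TrueCase SS a b (2 * M) (-(M : ℤ)) := ⟨_, rfl⟩
  obtain ⟨A', hA'⟩ : ∃ A', A' = Ms Pool.Agent.helper11.TX.Adm a b (b * M) := ⟨_, rfl⟩
  obtain ⟨T', hT'⟩ : ∃ T', T' = Ms TrueCase a b (b * M) := ⟨_, rfl⟩
  have hAM : (M : ℝ) / (4 * a) ≤ A := by
    have h1 := adm_many a b M ha hb hab
    rw [← hA] at h1
    have h2 : (M : ℝ) / (4 * a) ≤ M / (2 * a) - 2 := by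
      have h3 : (M : ℝ) / (2 * a) = 2 * (M / (4 * a)) := by field_simp; norm_num
      rw [h3]
      have h4 : 2 ≤ (M : ℝ) / (4 * a) := by
        rw [le_div_iff₀ (by positivity)]
        linarith
      linarith
    linarith
  have hA0 : 0 < A := lt_of_lt_of_le (by positivity) hAM
  -- the two windows
  have hwin : ∀ P : ℕ → ℕ → ℤ → Prop, Tw P SS a b (2 * M) (-(M : ℤ)) ≤ Ms P a b (b * M) ∧
      Ms P a b (b * M) ≤ Tw P SS a b (2 * M) (-(M : ℤ)) + SS a b (-((b : ℤ) * M)) := by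
    intro P
    by_cases h : P a b (-((b : ℤ) * M))
    · have h1 : Ms P a b (b * M) = Tw P SS a b (2 * M) (-(M : ℤ)) + SS a b (-((b : ℤ) * M)) := by
        unfold Ms Tw
        have e : {c ∈ Icc (-((b * M : ℕ) : ℤ)) ((b * M : ℕ) : ℤ) | P a b c} =
            insert (-((b : ℤ) * M)) {c ∈ Ioc ((b : ℤ) * -(M : ℤ)) ((b : ℤ) * (-(M : ℤ) + (2 * M : ℕ))) | P a b c} := by
          ext c
          rw [mem_insert, mem_filter, mem_filter, mem_Icc, mem_Ioc]
          push_cast
          have e1 : (b : ℤ) * -(M : ℤ) = -((b : ℤ) * M) := by ring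
          have e2 : (b : ℤ) * (-(M : ℤ) + 2 * M) = (b : ℤ) * M := by ring
          rw [e1, e2]
          constructor
          · rintro ⟨⟨h1, h2⟩, h3⟩
            rcases h1.eq_or_lt with h4 | h4
            · exact Or.inl h4.symm
            · exact Or.inr ⟨⟨h4, h2⟩, h3⟩
          · rintro (rfl | ⟨⟨h1, h2⟩, h3⟩)
            · have h0 : (0 : ℤ) ≤ (b : ℤ) * M := by positivity
              exact ⟨⟨le_rfl, by linarith⟩, h⟩
            · exact ⟨⟨h1.le, h2⟩, h3⟩
        rw [e, sum_insert, add_comm]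
        intro h2
        rw [mem_filter, mem_Ioc] at h2
        have h3 := h2.1.1
        have e1 : (b : ℤ) * -(M : ℤ) = -((b : ℤ) * M) := by ring
        rw [e1] at h3
        exact lt_irrefl _ h3
      rw [h1]
      exact ⟨by linarith [UQS_SS_nonneg a b (-((b : ℤ) * M))], le_rfl⟩
    · rw [WDW_sum h]
      exact ⟨le_rfl, by linarith [UQS_SS_nonneg a b (-((b : ℤ) * M))]⟩
  have hTT : T ≤ T' := by rw [hT, hT']; exact (hwin _).1
  have hAA : A ≤ A' := by rw [hA, hA']; exact (hwin _).1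
  have hAA' : A' ≤ A + SS a b (-((b : ℤ) * M)) := by rw [hA, hA']; exact (hwin _).2
  have hT'A' : T' ≤ A' := by
    rw [hT', hA']
    unfold Ms
    refine sum_le_sum_of_subset_of_nonneg ?_ fun c _ _ => UQS_SS_nonneg a b c
    intro c hc
    rw [mem_filter] at hc ⊢
    obtain ⟨h1, h2, h3, h4, h5, h6, h7, h8, -⟩ := hc
    exact ⟨h1, h2, h3, h4, h5, h6, h7, h8⟩
  have hT'0 : 0 ≤ T' := by rw [hT']; exact UQS_Ms_nonneg _ _ _ _
  have hSS : SS a b (-((b : ℤ) * M)) ≤ 2 * (a * b * √(M : ℝ)) := by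
    have h1 := SS_le a b (-((b : ℤ) * M)) ha hb (by
      have : (0 : ℤ) < (b : ℤ) * M := by positivity
      linarith)
    refine h1.trans ?_
    have h2 : √((a * b * (-((b : ℤ) * M)).natAbs : ℕ) : ℝ) ≤ a * b * √(M : ℝ) := by
      have h3 : (-((b : ℤ) * M)).natAbs = b * M := by
        rw [Int.natAbs_neg, Int.natAbs_mul, Int.natAbs_natCast, Int.natAbs_natCast]
      rw [h3]
      rw [Real.sqrt_le_left (by positivity), mul_pow, Real.sq_sqrt hM0.le]
      push_cast
      have h4 : (1 : ℝ) ≤ a := by exact_mod_cast ha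
      have h5 : (0 : ℝ) ≤ a * b ^ 2 * M := by positivity
      calc (a : ℝ) * b * (b * M) = 1 * (a * b ^ 2 * M) := by ring
        _ ≤ a * (a * b ^ 2 * M) := mul_le_mul_of_nonneg_right h4 h5
        _ = _ := by ring
    linarith
  have hsmall : SS a b (-((b : ℤ) * M)) / A ≤ ε := by
    rw [div_le_iff₀ hA0]
    refine hSS.trans ?_
    have h1 : 8 * (a : ℝ) ^ 2 * b / ε ≤ √(M : ℝ) := by
      rw [Real.le_sqrt (by positivity) hM0.le]
      exact hM2
    have h2 : 8 * (a : ℝ) ^ 2 * b ≤ ε * √(M : ℝ) := by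
      rw [div_le_iff₀ hε] at h1
      linarith
    have h3 : 2 * ((a : ℝ) * b * √(M : ℝ)) ≤ ε * ((M : ℝ) / (4 * a)) := by
      have h4 : ε * ((M : ℝ) / (4 * a)) = (ε * √(M : ℝ)) * √(M : ℝ) / (4 * a) := by
        rw [mul_assoc ε, Real.mul_self_sqrt hM0.le]
        ring
      rw [h4, le_div_iff₀ (by positivity)]
      have h5 := mul_le_mul_of_nonneg_right h2 (Real.sqrt_nonneg (M : ℝ))
      calc 2 * ((a : ℝ) * b * √(M : ℝ)) * (4 * a) = 8 * (a : ℝ) ^ 2 * b * √(M : ℝ) := by ring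
        _ ≤ _ := h5
    exact h3.trans (mul_le_mul_of_nonneg_left hAM hε.le)
  unfold DD
  rw [← hT, ← hA, ← hT', ← hA']
  have hA'0 : 0 < A' := lt_of_lt_of_le hA0 hAA
  have h1 : T / A ≤ T' / A := div_le_div_of_nonneg_right hTT hA0.le
  have h2 : T' / A - T' / A' ≤ SS a b (-((b : ℤ) * M)) / A := by
    have h3 : T' / A - T' / A' = (T' / A') * ((A' - A) / A) := by
      field_simp
    rw [h3]
    have h4 : T' / A' ≤ 1 := (div_le_one hA'0).2 hT'A'
    have h5 : 0 ≤ (A' - A) / A := div_nonneg (by linarith) hA0.le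
    calc (T' / A') * ((A' - A) / A) ≤ 1 * ((A' - A) / A) := mul_le_mul_of_nonneg_right h4 h5
      _ = (A' - A) / A := one_mul _
      _ ≤ _ := div_le_div_of_nonneg_right (by linarith) hA0.le
  linarith

end Pool.Agent.MM
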