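import Pool.Agent.helper72.MM.Y0
import Pool.Agent.helper72.MM.G0

/-!
# Project MM (MP_bf63dc_nt): at least a third of all `c` near every pair, on average
-/

set_option autoImplicit false

namespace Pool.Agent.MM

open Finset Pool.Agent.helper85.FC Pool.Agent.OM Pool.Agent.helper11.TX Pool.Agent.AT Pool.Agent.EP

theorem DD_nonneg (a b M : ℕ) (u : ℤ) : 0 ≤ DD a b M u := by
  unfold DD Tw
  exact div_nonneg (sum_nonneg fun c _ => UQS_SS_nonneg a b c) (sum_nonneg fun c _ => UQS_SS_nonneg a b c)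

theorem DD_le_one (a b M : ℕ) (u : ℤ) : DD a b M u ≤ 1 := by
  classical
  unfold DD Tw
  refine div_le_one_of_le₀ ?_ (sum_nonneg fun c _ => UQS_SS_nonneg a b c)
  refine sum_le_sum_of_subset_of_nonneg ?_ fun c _ _ => UQS_SS_nonneg a b c
  intro c hc
  rw [mem_filter] at hc ⊢
  obtain ⟨h1, h2, h3, h4, h5, h6, h7, h8, -⟩ := hc
  exact ⟨h1, h2, h3, h4, h5, h6, h7, h8⟩

/-- the share at the scale `M` for the pair `(y, x)`, reduced -/
noncomputable def Fm (M x y : ℕ) : ℝ := DD (y / Nat.gcd x y) (x / Nat.gcd x y) (2 * M) (-(M : ℤ))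

theorem Fm_nonneg (M x y : ℕ) : 0 ≤ Fm M x y := DD_nonneg _ _ _ _

theorem Fm_le_one (M x y : ℕ) : Fm M x y ≤ 1 := DD_le_one _ _ _ _

theorem Fm_scale (M x y c : ℕ) (hc : 1 ≤ c) : Fm M (x * c) (y * c) = Fm M x y := by
  unfold Fm
  rw [Nat.gcd_mul_right, Nat.mul_div_mul_right _ _ (by omega), Nat.mul_div_mul_right _ _ (by omega)]

/-- `DFk` for sequences -/
theorem DFseq (h : DFk (1 / 3)) (n : ℕ) (s : ℕ → ℕ) (hs : ∀ i, 0 < s i) (ε : ℝ) (hε : 0 < ε) : ∃ M₀ : ℕ, ∀ M : ℕ, M₀ ≤ M →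
    (1 / 3 - ε) * (n : ℝ) ^ 2 ≤ ∑ i ∈ range n, ∑ j ∈ range n, Fm M (s i) (s j) := by
  classical
  obtain ⟨M₀, hM₀⟩ := h ((range n).image s) (fun x => (#{i ∈ range n | s i = x} : ℝ)) (by
    intro x hx
    obtain ⟨i, -, rfl⟩ := mem_image.1 hx
    exact ⟨hs i, Nat.cast_nonneg _⟩) ε hε
  refine ⟨M₀, fun M hM => ?_⟩
  have h1 := hM₀ (2 * M) (by omega) (-(M : ℤ)) (by rw [abs_neg, Nat.abs_cast]; push_cast; omega)
  have h2 : ∑ x ∈ (range n).image s, (#{i ∈ range n | s i = x} : ℝ) = n := by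
    have h3 := card_eq_sum_card_image s (range n)
    rw [card_range] at h3
    exact_mod_cast h3.symm
  rw [h2] at h1
  refine h1.trans (le_of_eq ?_)
  rw [sum_comp (fun x => ∑ j ∈ range n, Fm M x (s j)) s]
  refine sum_congr rfl fun x _ => ?_
  rw [sum_comp (fun y => Fm M x y) s, smul_sum]
  refine sum_congr rfl fun y _ => ?_
  rw [nsmul_eq_mul, nsmul_eq_mul]
  unfold Fm
  ring

/-- **the minimal sequence** -/
theorem minY (h : DFk (1 / 3)) (ε : ℝ) (hε : 0 < ε) : ∃ (n : ℕ) (s : ℕ → ℕ), 0 < n ∧ (∀ i, 0 < s i) ∧ ∀ a b : ℕ, 1 ≤ a → 1 ≤ b →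
    ∀ M₀ : ℕ, ∃ M : ℕ, M₀ ≤ M ∧ (1 / 3 - ε) * (n : ℝ) ^ 2 ≤
      ∑ i ∈ range n, ∑ j ∈ range n, (Fm M (s i * a) (s j * b) + Fm M (s j * b) (s i * a)) / 2 := by
  classical
  obtain ⟨A, hA⟩ : ∃ A : Set ℝ, A = {d | ∃ (n : ℕ) (s : ℕ → ℕ), 0 < n ∧ (∀ i, 0 < s i) ∧ ∀ M₀ : ℕ, ∃ M : ℕ, M₀ ≤ M ∧
    ∑ i ∈ range n, ∑ j ∈ range n, Fm M (s i) (s j) ≤ d * (n : ℝ) ^ 2} := ⟨_, rfl⟩
  have hne : A.Nonempty := by
    refine ⟨1, ?_⟩
    rw [hA]
    refine ⟨1, fun _ => 1, one_pos, fun _ => one_pos, fun M₀ => ⟨M₀, le_rfl, ?_⟩⟩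
    rw [sum_range_one, sum_range_one]
    have := Fm_le_one M₀ 1 1
    push_cast
    linarith
  have hlow : ∀ d ∈ A, 1 / 3 ≤ d := by
    intro d hd
    rw [hA] at hd
    obtain ⟨n, s, hn, hs, hd⟩ := hd
    have hn0 : (0 : ℝ) < n := by exact_mod_cast hn
    refine le_of_forall_pos_le_add fun e he => ?_
    obtain ⟨M₀, hM₀⟩ := DFseq h n s hs e he
    obtain ⟨M, hM, h1⟩ := hd M₀
    have h2 := (hM₀ M hM).trans h1
    have h3 : 1 / 3 - e ≤ d := le_of_mul_le_mul_right h2 (by positivity)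
    linarith
  have hbd : BddBelow A := ⟨1 / 3, fun d hd => hlow d hd⟩
  obtain ⟨d₀, hd₀⟩ : ∃ d₀, d₀ = sInf A := ⟨_, rfl⟩
  have hd1 : 1 / 3 ≤ d₀ := by
    rw [hd₀]
    exact le_csInf hne hlow
  obtain ⟨d, hd, hd2⟩ := exists_lt_of_csInf_lt hne (show sInf A < sInf A + ε / 4 by linarith)
  rw [← hd₀] at hd2
  rw [hA] at hd
  obtain ⟨n, s, hn, hs, hd⟩ := hd
  refine ⟨n, s, hn, hs, fun a b ha hb M₀ => ?_⟩
  have hnot : d₀ - ε / 8 ∉ A := by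
    intro h1
    have h2 := csInf_le hbd h1
    rw [← hd₀] at h2
    linarith
  rw [hA] at hnot
  have h3 : ∃ M₁ : ℕ, ∀ M : ℕ, M₁ ≤ M → (d₀ - ε / 8) * ((n + n : ℕ) : ℝ) ^ 2 <
      ∑ i ∈ range (n + n), ∑ j ∈ range (n + n), Fm M (two n a b s i) (two n a b s j) := by
    by_contra hcon
    push Not at hcon
    apply hnot
    refine ⟨n + n, two n a b s, by omega, fun i => ?_, hcon⟩
    unfold two
    split_ifs
    · exact Nat.mul_pos (hs _) ha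
    · exact Nat.mul_pos (hs _) hb
  obtain ⟨M₁, hM₁⟩ := h3
  obtain ⟨M, hM, hMd⟩ := hd (max M₀ M₁)
  refine ⟨M, (le_max_left _ _).trans hM, ?_⟩
  have h4 := hM₁ M ((le_max_right _ _).trans hM)
  have e1 : ∑ i ∈ range (n + n), ∑ j ∈ range (n + n), Fm M (two n a b s i) (two n a b s j) =
      2 * ∑ i ∈ range n, ∑ j ∈ range n, Fm M (s i) (s j) +
        2 * ∑ i ∈ range n, ∑ j ∈ range n, (Fm M (s i * a) (s j * b) + Fm M (s j * b) (s i * a)) / 2 := by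
    have hj : ∀ u : ℕ, (∑ j ∈ range (n + n), Fm M u (two n a b s j)) =
        (∑ j ∈ range n, Fm M u (s j * a)) + ∑ j ∈ range n, Fm M u (s j * b) :=
      fun u => two_sum n a b s fun v => Fm M u v
    rw [two_sum n a b s fun u => ∑ j ∈ range (n + n), Fm M u (two n a b s j)]
    simp only [hj, sum_add_distrib, Fm_scale _ _ _ a ha, Fm_scale _ _ _ b hb]
    have e2 : ∑ i ∈ range n, ∑ j ∈ range n, Fm M (s i * b) (s j * a) = ∑ i ∈ range n, ∑ j ∈ range n, Fm M (s j * b) (s i * a) := sum_comm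
    rw [e2]
    have e3 : ∑ i ∈ range n, ∑ j ∈ range n, (Fm M (s i * a) (s j * b) + Fm M (s j * b) (s i * a)) / 2 =
        (∑ i ∈ range n, ∑ j ∈ range n, Fm M (s i * a) (s j * b) + ∑ i ∈ range n, ∑ j ∈ range n, Fm M (s j * b) (s i * a)) / 2 := by
      simp only [← sum_div, sum_add_distrib]
    rw [e3]
    ring
  rw [e1] at h4
  have hn0 : (0 : ℝ) < n := by exact_mod_cast hn
  have hn2 : (0 : ℝ) < (n : ℝ) ^ 2 := by positivity
  push_cast at h4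
  have h5 : d * (n : ℝ) ^ 2 ≤ (d₀ + ε / 4) * (n : ℝ) ^ 2 := mul_le_mul_of_nonneg_right hd2.le hn2.le
  have h6 : (1 / 3 : ℝ) * (n : ℝ) ^ 2 ≤ d₀ * (n : ℝ) ^ 2 := mul_le_mul_of_nonneg_right hd1 hn2.le
  have h7 : 0 < ε * (n : ℝ) ^ 2 := by positivity
  nlinarith

end Pool.Agent.MM
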